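import Mathlib

set_option autoImplicit false
set_option linter.unusedSectionVars false

/-!
Pseudo-random subsets of `K × K × K`: the graph of multiplication.
-/

open Finset
open scoped Classical

namespace Pool.Agent.Helper74ExtAm

noncomputable section

section Single

variable {K : Type*} [Field K] [Fintype K]

/-- number of elements of `A` moved into `U` by translation by `v` -/
def hit {V : Type*} [AddCommGroup V] (U A : Finset V) (v : V) : ℕ := (A.filter fun a => a + v ∈ U).card

/-- translates of the graph of multiplication -/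
def gr (C : Finset K) : Finset (K × K × K) :=
  (univ : Finset (K × K × K)).filter fun v => v.2.2 - v.1 * v.2.1 ∈ C

lemma mem_gr (C : Finset K) (v : K × K × K) : v ∈ gr C ↔ v.2.2 - v.1 * v.2.1 ∈ C := by
  simp [gr]

lemma card_graph (F : K → K → K) :
    ((univ : Finset (K × K × K)).filter fun v => v.2.2 = F v.1 v.2.1).card = Fintype.card K ^ 2 := by
  have h : ((univ : Finset (K × K × K)).filter fun v => v.2.2 = F v.1 v.2.1)
      = (univ : Finset (K × K)).map ⟨fun p => (p.1, p.2, F p.1 p.2), fun p p' h => by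
          simp only [Prod.mk.injEq] at h
          exact Prod.ext h.1 h.2.1⟩ := by
    ext v
    simp only [Finset.mem_filter, Finset.mem_univ, true_and, Finset.mem_map]
    constructor
    · intro h
      exact ⟨(v.1, v.2.1), Prod.ext rfl (Prod.ext rfl h.symm)⟩
    · rintro ⟨p, rfl⟩
      rfl
  rw [h, Finset.card_map, Finset.card_univ, Fintype.card_prod, sq]

lemma card_translate_single (c : K) (a : K × K × K) :
    ((univ : Finset (K × K × K)).filter fun v => a + v ∈ gr {c}).card = Fintype.card K ^ 2 := by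
  rw [← card_graph (fun x y => (a.1 + x) * (a.2.1 + y) + c - a.2.2)]
  congr 1
  ext v
  simp only [Finset.mem_filter, Finset.mem_univ, true_and, mem_gr, Finset.mem_singleton,
    Prod.fst_add, Prod.snd_add]
  constructor
  · intro h
    rw [sub_eq_iff_eq_add] at h
    rw [eq_sub_iff_add_eq, add_comm, h, add_comm]
  · intro h
    rw [eq_sub_iff_add_eq] at h
    rw [sub_eq_iff_eq_add, add_comm a.2.2, h, add_comm]

lemma card_pair (c : K) (a b : K × K × K) (hab : a ≠ b) :
    ((univ : Finset (K × K × K)).filter fun v => a + v ∈ gr {c} ∧ b + v ∈ gr {c}).card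
      ≤ Fintype.card K := by
  by_cases h1 : a.1 = b.1
  · by_cases h2 : a.2.1 = b.2.1
    · -- empty
      have : ((univ : Finset (K × K × K)).filter fun v => a + v ∈ gr {c} ∧ b + v ∈ gr {c}) = ∅ := by
        rw [Finset.filter_eq_empty_iff]
        rintro v - ⟨ha, hb⟩
        simp only [mem_gr, Finset.mem_singleton, Prod.fst_add, Prod.snd_add] at ha hb
        apply hab
        rw [h1, h2] at ha
        have h3 : a.2.2 = b.2.2 := by
          have := ha.trans hb.symm
          simpa using this
        exact Prod.ext h1 (Prod.ext h2 h3)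
      rw [this]
      simp
    · rw [← Finset.card_univ]
      apply Finset.card_le_card_of_injOn (fun v => v.2.1) (fun _ _ => Finset.mem_coe.mpr (Finset.mem_univ _))
      intro v hv v' hv' hvv
      simp only [Finset.coe_filter, Finset.mem_univ, true_and, Set.mem_ofPred_eq, mem_gr,
        Finset.mem_singleton, Prod.fst_add, Prod.snd_add] at hv hv'
      simp only at hvv
      obtain ⟨ha, hb⟩ := hv
      obtain ⟨ha', hb'⟩ := hv'
      rw [← h1] at hb hb'
      rw [← hvv] at ha' hb'
      have h3 : (a.2.1 - b.2.1) * (v.1 - v'.1) = 0 := by linear_combination hb - ha + ha' - hb'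
      have h4 : v.1 = v'.1 := by
        rcases mul_eq_zero.mp h3 with h | h
        · exact absurd (sub_eq_zero.mp h) h2
        · exact sub_eq_zero.mp h
      rw [← h4] at ha'
      have h5 : v.2.2 = v'.2.2 := by
        have := ha.trans ha'.symm
        simpa using this
      exact Prod.ext h4 (Prod.ext hvv h5)
  · rw [← Finset.card_univ]
    apply Finset.card_le_card_of_injOn (fun v => v.1) (fun _ _ => Finset.mem_coe.mpr (Finset.mem_univ _))
    intro v hv v' hv' hvv
    simp only [Finset.coe_filter, Finset.mem_univ, true_and, Set.mem_ofPred_eq, mem_gr,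
      Finset.mem_singleton, Prod.fst_add, Prod.snd_add] at hv hv'
    simp only at hvv
    obtain ⟨ha, hb⟩ := hv
    obtain ⟨ha', hb'⟩ := hv'
    rw [← hvv] at ha' hb'
    have h3 : (a.1 - b.1) * (v.2.1 - v'.2.1) = 0 := by linear_combination hb - ha + ha' - hb'
    have h4 : v.2.1 = v'.2.1 := by
      rcases mul_eq_zero.mp h3 with h | h
      · exact absurd (sub_eq_zero.mp h) h1
      · exact sub_eq_zero.mp h
    rw [← h4] at ha'
    have h5 : v.2.2 = v'.2.2 := by
      have := ha.trans ha'.symm
      simpa using this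
    exact Prod.ext hvv (Prod.ext h4 h5)

/-- first moment, general -/
lemma sum_hit {V : Type*} [AddCommGroup V] [Fintype V] (U A : Finset V) :
    ∑ v : V, (hit U A v : ℝ) = (A.card : ℝ) * U.card := by
  unfold hit
  have h1 : ∀ v : V, ((A.filter fun a => a + v ∈ U).card : ℝ)
      = ∑ a ∈ A, if a + v ∈ U then (1 : ℝ) else 0 := by
    intro v
    rw [Finset.card_filter]
    push_cast
    rfl
  simp_rw [h1]
  rw [Finset.sum_comm]
  have h2 : ∀ a ∈ A, ∑ v : V, (if a + v ∈ U then (1 : ℝ) else 0) = U.card := by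
    intro a _
    rw [← Equiv.sum_comp (Equiv.addLeft (-a)) (fun v => if a + v ∈ U then (1 : ℝ) else 0)]
    simp
  rw [Finset.sum_congr rfl h2, Finset.sum_const, nsmul_eq_mul]

lemma hit_le {V : Type*} [AddCommGroup V] (U A : Finset V) (v : V) : hit U A v ≤ U.card := by
  unfold hit
  apply Finset.card_le_card_of_injOn (fun a => a + v)
  · intro a ha
    simp only [Finset.coe_filter, Set.mem_ofPred_eq] at ha
    exact Finset.mem_coe.mpr ha.2
  · intro a _ b _ h
    exact add_right_cancel h

lemma second_moment (c : K) (A : Finset (K × K × K)) :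
    ∑ v, (hit (gr {c}) A v : ℝ) ^ 2 ≤
      (Fintype.card K : ℝ) ^ 2 * A.card + Fintype.card K * (A.card : ℝ) ^ 2 := by
  have h1 : ∀ v : K × K × K, (hit (gr {c}) A v : ℝ) ^ 2
      = ∑ a ∈ A, ∑ b ∈ A, if (a + v ∈ gr {c} ∧ b + v ∈ gr {c}) then (1 : ℝ) else 0 := by
    intro v
    unfold hit
    rw [Finset.card_filter]
    push_cast
    rw [sq, Finset.sum_mul_sum]
    refine Finset.sum_congr rfl fun a _ => Finset.sum_congr rfl fun b _ => ?_
    by_cases ha : a + v ∈ gr {c} <;> by_cases hb : b + v ∈ gr {c} <;> simp [ha, hb]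
  simp_rw [h1]
  rw [Finset.sum_comm]
  have h2 : ∀ a ∈ A, ∑ v : K × K × K, ∑ b ∈ A,
      (if (a + v ∈ gr {c} ∧ b + v ∈ gr {c}) then (1 : ℝ) else 0)
      ≤ (Fintype.card K : ℝ) ^ 2 + Fintype.card K * A.card := by
    intro a ha
    rw [Finset.sum_comm, ← Finset.add_sum_erase A _ ha]
    have h3 : ∑ v : K × K × K, (if (a + v ∈ gr {c} ∧ a + v ∈ gr {c}) then (1 : ℝ) else 0)
        = (Fintype.card K : ℝ) ^ 2 := by
      have h0 : (((univ : Finset (K × K × K)).filter fun v => a + v ∈ gr {c}).card : ℝ)
          = (Fintype.card K : ℝ) ^ 2 := by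
        rw [card_translate_single]; push_cast; rfl
      simp only [and_self]
      rw [← h0, Finset.card_filter]
      push_cast
      rfl
    rw [h3]
    have h4 : ∑ b ∈ A.erase a, ∑ v : K × K × K,
        (if (a + v ∈ gr {c} ∧ b + v ∈ gr {c}) then (1 : ℝ) else 0)
        ≤ ∑ b ∈ A.erase a, (Fintype.card K : ℝ) := by
      refine Finset.sum_le_sum fun b hb => ?_
      have h5 := card_pair c a b (Finset.ne_of_mem_erase hb).symm
      rw [Finset.card_filter] at h5
      exact_mod_cast h5
    rw [Finset.sum_const, nsmul_eq_mul] at h4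
    have h6 : ((A.erase a).card : ℝ) ≤ A.card := by
      exact_mod_cast Finset.card_le_card (Finset.erase_subset _ _)
    have h7 : (0 : ℝ) ≤ Fintype.card K := by positivity
    nlinarith
  refine (Finset.sum_le_sum h2).trans (le_of_eq ?_)
  rw [Finset.sum_const, nsmul_eq_mul]
  ring

lemma card_gr (C : Finset K) : (gr C).card = Fintype.card K ^ 2 * C.card := by
  have h : gr C = C.biUnion fun c => (univ : Finset (K × K × K)).filter fun v =>
      v.2.2 = v.1 * v.2.1 + c := by
    ext v
    simp only [mem_gr, Finset.mem_biUnion, Finset.mem_filter, Finset.mem_univ, true_and]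
    constructor
    · intro h
      exact ⟨_, h, by ring⟩
    · rintro ⟨c, hc, h⟩
      rw [h]
      simpa using hc
  rw [h, Finset.card_biUnion]
  · have h2 : ∀ c ∈ C, ((univ : Finset (K × K × K)).filter fun v => v.2.2 = v.1 * v.2.1 + c).card
        = Fintype.card K ^ 2 := fun c _ => card_graph (fun x y => x * y + c)
    rw [Finset.sum_congr rfl h2, Finset.sum_const, smul_eq_mul, mul_comm]
  · intro c _ c' _ hcc
    show Disjoint _ _
    rw [Finset.disjoint_left]
    intro v h1 h2
    simp only [Finset.mem_filter, Finset.mem_univ, true_and] at h1 h2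
    apply hcc
    rw [h1] at h2
    simpa using h2

lemma hit_gr (C : Finset K) (A : Finset (K × K × K)) (v : K × K × K) :
    hit (gr C) A v = ∑ c ∈ C, hit (gr {c}) A v := by
  unfold hit
  rw [← Finset.card_biUnion]
  · congr 1
    ext a
    simp only [Finset.mem_filter, Finset.mem_biUnion, mem_gr, Finset.mem_singleton]
    constructor
    · rintro ⟨h1, h2⟩
      exact ⟨_, h2, h1, rfl⟩
    · rintro ⟨c, hc, h1, h2⟩
      rw [← h2] at hc
      exact ⟨h1, hc⟩
  · intro c _ c' _ hcc
    show Disjoint _ _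
    rw [Finset.disjoint_left]
    intro a h1 h2
    simp only [Finset.mem_filter, mem_gr, Finset.mem_singleton] at h1 h2
    exact hcc (h1.2.symm.trans h2.2)

lemma variance_single (c : K) (A : Finset (K × K × K)) :
    ∑ v, ((hit (gr {c}) A v : ℝ) - A.card / Fintype.card K) ^ 2 ≤
      (Fintype.card K : ℝ) ^ 2 * A.card := by
  set q : ℝ := (Fintype.card K : ℝ) with hq
  have hq0 : 0 < q := by
    rw [hq]; exact_mod_cast Fintype.card_pos
  have h1 : ∑ v, ((hit (gr {c}) A v : ℝ) - A.card / q) ^ 2
      = ∑ v, (hit (gr {c}) A v : ℝ) ^ 2 - 2 * (A.card / q) * ∑ v, (hit (gr {c}) A v : ℝ)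
        + q ^ 3 * (A.card / q) ^ 2 := by
    have : ∀ v : K × K × K, ((hit (gr {c}) A v : ℝ) - A.card / q) ^ 2
        = (hit (gr {c}) A v : ℝ) ^ 2 - 2 * (A.card / q) * (hit (gr {c}) A v : ℝ)
          + (A.card / q) ^ 2 := by
      intro v; ring
    simp_rw [this]
    rw [Finset.sum_add_distrib, Finset.sum_sub_distrib, ← Finset.mul_sum, Finset.sum_const,
      Finset.card_univ, nsmul_eq_mul, Fintype.card_prod, Fintype.card_prod]
    push_cast
    rw [← hq]
    ring
  rw [h1, sum_hit, card_gr, Finset.card_singleton]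
  push_cast
  rw [← hq]
  have h2 := second_moment c A
  rw [← hq] at h2
  have h3 : 2 * ((A.card : ℝ) / q) * ((A.card : ℝ) * (q ^ 2 * 1)) = 2 * q * (A.card : ℝ) ^ 2 := by
    field_simp
  have h4 : q ^ 3 * ((A.card : ℝ) / q) ^ 2 = q * (A.card : ℝ) ^ 2 := by
    field_simp
  rw [h3, h4]
  linarith

lemma variance (C : Finset K) (hC : C.Nonempty) (A : Finset (K × K × K)) :
    ∑ v, ((hit (gr C) A v : ℝ) / (gr C).card - A.card / (Fintype.card K : ℝ) ^ 3) ^ 2 ≤
      (Fintype.card K : ℝ) := by
  set q : ℝ := (Fintype.card K : ℝ) with hq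
  have hq0 : 0 < q := by
    rw [hq]; exact_mod_cast Fintype.card_pos
  have hC0 : (0 : ℝ) < C.card := by exact_mod_cast Finset.card_pos.mpr hC
  have h1 : ∀ v, ((hit (gr C) A v : ℝ) / (gr C).card - A.card / q ^ 3) ^ 2
      ≤ (1 / (q ^ 4 * C.card)) * ∑ c ∈ C, ((hit (gr {c}) A v : ℝ) - A.card / q) ^ 2 := by
    intro v
    have h2 : (hit (gr C) A v : ℝ) / (gr C).card - A.card / q ^ 3
        = (1 / (q ^ 2 * C.card)) * ∑ c ∈ C, ((hit (gr {c}) A v : ℝ) - A.card / q) := by
      rw [hit_gr, card_gr]
      push_cast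
      rw [← hq, Finset.sum_sub_distrib, Finset.sum_const, nsmul_eq_mul]
      field_simp
    rw [h2, mul_pow]
    have h3 := sq_sum_le_card_mul_sum_sq (s := C)
      (f := fun c => ((hit (gr {c}) A v : ℝ) - A.card / q))
    have h4 : (1 / (q ^ 2 * (C.card : ℝ))) ^ 2 * (C.card : ℝ) = 1 / (q ^ 4 * C.card) := by
      field_simp
    calc (1 / (q ^ 2 * (C.card : ℝ))) ^ 2 * (∑ c ∈ C, ((hit (gr {c}) A v : ℝ) - A.card / q)) ^ 2
        ≤ (1 / (q ^ 2 * (C.card : ℝ))) ^ 2 *
          (C.card * ∑ c ∈ C, ((hit (gr {c}) A v : ℝ) - A.card / q) ^ 2) :=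
          mul_le_mul_of_nonneg_left h3 (by positivity)
      _ = _ := by rw [← mul_assoc, h4]
  refine (Finset.sum_le_sum fun v _ => h1 v).trans ?_
  rw [← Finset.mul_sum, Finset.sum_comm]
  have h5 : ∑ c ∈ C, ∑ v, ((hit (gr {c}) A v : ℝ) - A.card / q) ^ 2
      ≤ ∑ c ∈ C, q ^ 2 * A.card := Finset.sum_le_sum fun c _ => variance_single c A
  rw [Finset.sum_const, nsmul_eq_mul] at h5
  have h6 : (A.card : ℝ) ≤ q ^ 3 := by
    have := Finset.card_le_univ A
    rw [Fintype.card_prod, Fintype.card_prod] at this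
    have h7 : (A.card : ℝ) ≤ ((Fintype.card K * (Fintype.card K * Fintype.card K) : ℕ) : ℝ) := by
      exact_mod_cast this
    refine h7.trans (le_of_eq ?_)
    push_cast
    rw [← hq]; ring
  calc 1 / (q ^ 4 * (C.card : ℝ)) * ∑ c ∈ C, ∑ v, ((hit (gr {c}) A v : ℝ) - A.card / q) ^ 2
      ≤ 1 / (q ^ 4 * (C.card : ℝ)) * (C.card * (q ^ 2 * A.card)) :=
        mul_le_mul_of_nonneg_left h5 (by positivity)
    _ = A.card / q ^ 2 := by field_simp
    _ ≤ q ^ 3 / q ^ 2 := div_le_div_of_nonneg_right h6 (by positivity)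
    _ = q := by field_simp

/-- transport along an additive equivalence -/
lemma variance_transport {V : Type*} [AddCommGroup V] [Fintype V] (e : V ≃+ K × K × K)
    (C : Finset K) (hC : C.Nonempty) (A : Finset V) :
    ∑ v, ((hit ((gr C).map e.symm.toEquiv.toEmbedding) A v : ℝ) /
      ((gr C).map e.symm.toEquiv.toEmbedding).card - A.card / (Fintype.card V : ℝ)) ^ 2 ≤
      (Fintype.card K : ℝ) := by
  have hcard : (Fintype.card V : ℝ) = (Fintype.card K : ℝ) ^ 3 := by
    rw [Fintype.card_congr e.toEquiv, Fintype.card_prod, Fintype.card_prod]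
    push_cast
    ring
  rw [hcard]
  refine le_trans (le_of_eq ?_) (variance C hC (A.map e.toEquiv.toEmbedding))
  rw [← Equiv.sum_comp e.toEquiv]
  refine Finset.sum_congr rfl fun v _ => ?_
  rw [Finset.card_map, Finset.card_map]
  congr 4
  unfold hit
  have hset : (A.map e.toEquiv.toEmbedding).filter (fun a => a + e.toEquiv v ∈ gr C)
      = (A.filter fun a => a + v ∈ (gr C).map e.symm.toEquiv.toEmbedding).map
        e.toEquiv.toEmbedding := by
    ext x
    simp only [Finset.mem_map, Finset.mem_filter, Equiv.coe_toEmbedding]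
    constructor
    · rintro ⟨⟨a, ha, rfl⟩, hx⟩
      refine ⟨a, ⟨ha, _, hx, ?_⟩, rfl⟩
      have : e.symm (e a + e v) = a + v := by rw [← map_add, e.symm_apply_apply]
      exact this
    · rintro ⟨a, ⟨ha, u, hu, h⟩, rfl⟩
      refine ⟨⟨a, ha, rfl⟩, ?_⟩
      have : e.toEquiv a + e.toEquiv v = u := by
        have h2 : e (a + v) = u := by
          rw [← h]; exact e.apply_symm_apply u
        rw [map_add] at h2
        exact h2
      rw [this]; exact hu
  refine (Finset.card_map e.toEquiv.toEmbedding).symm.trans (congrArg Finset.card ?_)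
  ext x
  have hx := Finset.ext_iff.mp hset x
  simp only [Finset.mem_filter] at hx ⊢
  exact hx.symm

end Single

end

end Pool.Agent.Helper74ExtAm
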