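import Pool.Agent.Helper74_ExtAm.Val
import Pool.Agent.Helper74_ExtAm.Pseudo

set_option autoImplicit false
set_option linter.unusedSectionVars false

/-!
The blocks: cyclic modules over the free algebra on three letters, encoded by labelled cycles.
-/

open Finset
open scoped Classical

namespace Pool.Agent.Helper74ExtAm

noncomputable section

/-- size parameter -/
def dd (k : ℕ) : ℕ := Nat.log 2 (k + 1) + 3

/-- length of the cycle of block `k` -/
def nn (k : ℕ) : ℕ := 3 * dd k

lemma dd_ge (k : ℕ) : 3 ≤ dd k := by unfold dd; omega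

lemma nn_pos (k : ℕ) : 0 < nn k := by have := dd_ge k; unfold nn; omega

instance (k : ℕ) : NeZero (nn k) := ⟨(nn_pos k).ne'⟩

/-- the module of block `k` -/
abbrev WW (k : ℕ) : Type := ZMod (nn k) → ZMod 2

/-- the block -/
abbrev VV (k : ℕ) : Type := WW k × WW k

/-- labels of the cycle -/
def lab (k : ℕ) (x : ZMod (nn k)) : Fin 3 :=
  if x.val + 1 = nn k then 2 else if k.testBit x.val then 1 else 0

/-- partial shifts -/
def TT (k : ℕ) (j : Fin 3) : WW k →ₗ[ZMod 2] WW k where
  toFun f := fun x => if lab k (x - 1) = j then f (x - 1) else 0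
  map_add' f g := by
    ext x
    simp only [Pi.add_apply]
    split_ifs <;> simp
  map_smul' c f := by
    ext x
    simp only [Pi.smul_apply, RingHom.id_apply, smul_eq_mul]
    split_ifs <;> simp

lemma TT_single (k : ℕ) (j : Fin 3) (x : ZMod (nn k)) :
    TT k j (Pi.single x 1) = if lab k x = j then Pi.single (x + 1) 1 else 0 := by
  ext y
  simp only [TT, LinearMap.coe_mk, AddHom.coe_mk]
  by_cases hy : y = x + 1
  · subst hy
    rw [add_sub_cancel_right]
    split_ifs
    · simp
    · simp
  · have h1 : y - 1 ≠ x := fun h => hy (by rw [← h, sub_add_cancel])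
    rw [Pi.single_eq_of_ne h1]
    split_ifs
    · rw [Pi.single_eq_of_ne hy]
    · rfl
    · rw [Pi.single_eq_of_ne hy]
    · rfl

/-- base vector -/
def w0 (k : ℕ) : WW k := Pi.single 0 1

/-- the label sequence -/
def ell (k i : ℕ) : Fin 3 := lab k (i : ZMod (nn k))

/-- path words -/
def pw (k : ℕ) : ℕ → List (Fin 3)
  | 0 => []
  | (r + 1) => ell k r :: pw k r

lemma wd_pw (k k' : ℕ) (r : ℕ) :
    wd (TT k') (w0 k') (pw k r)
      = if (∀ i < r, ell k' i = ell k i) then Pi.single (r : ZMod (nn k')) 1 else 0 := by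
  induction r with
  | zero => simp [pw, wd, w0]
  | succ r ih =>
    simp only [pw, wd]
    rw [ih]
    by_cases h : ∀ i < r, ell k' i = ell k i
    · rw [if_pos h, TT_single]
      by_cases h' : ell k' r = ell k r
      · rw [if_pos (by exact h'), if_pos]
        · push_cast; rfl
        · intro i hi
          rcases Nat.lt_succ_iff_lt_or_eq.mp hi with h1 | rfl
          · exact h i h1
          · exact h'
      · rw [if_neg (by exact h'), if_neg]
        intro hcon
        exact h' (hcon r (Nat.lt_succ_self r))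
    · rw [if_neg h, map_zero, if_neg]
      intro hcon
      exact h fun i hi => hcon i (Nat.lt_succ_of_lt hi)

lemma ell_eq (k i : ℕ) (hi : i < nn k) :
    ell k i = if i + 1 = nn k then 2 else if k.testBit i then 1 else 0 := by
  unfold ell lab
  rw [ZMod.val_natCast, Nat.mod_eq_of_lt hi]

lemma lt_two_pow_nn (k : ℕ) : k < 2 ^ (nn k - 1) := by
  have h1 : k + 1 < 2 ^ (Nat.log 2 (k + 1) + 1) := Nat.lt_pow_succ_log_self (by norm_num) _
  have h2 : Nat.log 2 (k + 1) + 1 ≤ nn k - 1 := by unfold nn dd; omega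
  have h3 : 2 ^ (Nat.log 2 (k + 1) + 1) ≤ 2 ^ (nn k - 1) := Nat.pow_le_pow_right (by norm_num) h2
  omega

/-- distinct blocks have different label sequences -/
lemma ell_sep (k k' : ℕ) (h : k ≠ k') : ∃ i < nn k, ell k' i ≠ ell k i := by
  rcases lt_trichotomy (nn k) (nn k') with hlt | heq | hgt
  · refine ⟨nn k - 1, by have := nn_pos k; omega, ?_⟩
    rw [ell_eq k _ (by have := nn_pos k; omega), ell_eq k' _ (by have := nn_pos k; omega)]
    have h1 : nn k - 1 + 1 = nn k := by have := nn_pos k; omega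
    rw [if_pos h1, if_neg (by omega)]
    split_ifs <;> decide
  · obtain ⟨i, hi⟩ := Nat.exists_testBit_ne_of_ne h
    have hik : i < nn k - 1 := by
      by_contra hcon
      push Not at hcon
      apply hi
      have h1 : k.testBit i = false := Nat.testBit_eq_false_of_lt
        ((lt_two_pow_nn k).trans_le (Nat.pow_le_pow_right (by norm_num) hcon))
      have h2 : k'.testBit i = false := Nat.testBit_eq_false_of_lt
        ((lt_two_pow_nn k').trans_le (Nat.pow_le_pow_right (by norm_num) (by omega)))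
      rw [h1, h2]
    refine ⟨i, by omega, ?_⟩
    rw [ell_eq k i (by omega), ell_eq k' i (by omega), if_neg (show ¬ (i + 1 = nn k') by omega),
      if_neg (show ¬ (i + 1 = nn k) by omega)]
    cases h1 : k.testBit i <;> cases h2 : k'.testBit i
    · rw [h1, h2] at hi; exact absurd rfl hi
    · simp
    · simp
    · rw [h1, h2] at hi; exact absurd rfl hi
  · refine ⟨nn k' - 1, by have := nn_pos k'; omega, ?_⟩
    rw [ell_eq k _ (by have := nn_pos k'; omega), ell_eq k' _ (by have := nn_pos k'; omega)]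
    have h1 : nn k' - 1 + 1 = nn k' := by have := nn_pos k'; omega
    rw [if_pos h1, if_neg (by omega)]
    split_ifs <;> decide

/-- finite products of blocks -/
abbrev WK (K : ℕ) : Type := ∀ k : Fin (K + 1), WW k

/-- operators on the product -/
def TK (K : ℕ) (j : Fin 3) : WK K →ₗ[ZMod 2] WK K :=
  LinearMap.pi fun k => (TT k j).comp (LinearMap.proj k)

def wK (K : ℕ) : WK K := fun k => w0 k

lemma wd_TK (K : ℕ) (u : List (Fin 3)) (k : Fin (K + 1)) :
    wd (TK K) (wK K) u k = wd (TT k) (w0 k) u := by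
  induction u with
  | nil => rfl
  | cons j u ih =>
    simp only [wd, TK, LinearMap.pi_apply, LinearMap.comp_apply, LinearMap.proj_apply]
    rw [← ih]

lemma wd_TK_single (K : ℕ) (k : Fin (K + 1)) (i : ℕ) :
    wd (TK K) (wK K) (pw k (nn k + i)) = Pi.single k (Pi.single (i : ZMod (nn k)) 1) := by
  ext k' : 1
  rw [wd_TK, wd_pw]
  by_cases h : k' = k
  · subst h
    rw [if_pos (fun _ _ => rfl), Pi.single_eq_same]
    have h1 : ((nn k' + i : ℕ) : ZMod (nn k')) = (i : ZMod (nn k')) := by simp
    rw [h1]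
  · rw [Pi.single_eq_of_ne h, if_neg]
    intro hcon
    have hne : (k : ℕ) ≠ (k' : ℕ) := fun h' => h (Fin.ext h'.symm)
    obtain ⟨i', hi', hne'⟩ := ell_sep k k' hne
    exact hne' (hcon i' (by omega))

lemma cyclic_TK (K : ℕ) (φ : WK K →ₗ[ZMod 2] ZMod 2)
    (h : ∀ u, φ (wd (TK K) (wK K) u) = 0) : φ = 0 := by
  apply LinearMap.pi_ext'
  intro k
  apply LinearMap.pi_ext'
  intro x
  ext
  simp only [LinearMap.comp_apply, LinearMap.coe_single, LinearMap.zero_apply]
  have h1 := h (pw k (nn k + x.val))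
  rw [wd_TK_single, ZMod.natCast_zmod_val] at h1
  exact h1

/-- cyclicity of a single block: every vector is the `k`-component of a sum of word values -/
lemma wd_single (k : ℕ) (i : ℕ) :
    wd (TT k) (w0 k) (pw k i) = Pi.single (i : ZMod (nn k)) 1 := by
  rw [wd_pw, if_pos (fun _ _ => rfl)]

/-- the finite fields -/
abbrev KK (k : ℕ) : Type := GaloisField 2 (2 * dd k)

instance (k : ℕ) : Fintype (KK k) := Fintype.ofFinite _

lemma card_KK (k : ℕ) : Fintype.card (KK k) = 4 ^ dd k := by
  rw [← Nat.card_eq_fintype_card, GaloisField.card 2 _ (by have := dd_ge k; omega), pow_mul]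
  norm_num

lemma card_WW (k : ℕ) : Fintype.card (WW k) = 8 ^ dd k := by
  rw [Fintype.card_fun, ZMod.card, ZMod.card, nn, pow_mul]
  norm_num

lemma card_VV (k : ℕ) : Fintype.card (VV k) = 64 ^ dd k := by
  rw [Fintype.card_prod, card_WW, ← mul_pow]
  norm_num

lemma card_VV' (k : ℕ) : Fintype.card (VV k) = Fintype.card (KK k × KK k × KK k) := by
  rw [card_VV, Fintype.card_prod, Fintype.card_prod, card_KK, ← mul_pow, ← mul_pow]
  norm_num

lemma exists_equiv (k : ℕ) : Nonempty (VV k ≃+ KK k × KK k × KK k) := by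
  have h1 := Module.card_eq_pow_finrank (K := ZMod 2) (V := VV k)
  have h2 := Module.card_eq_pow_finrank (K := ZMod 2) (V := KK k × KK k × KK k)
  rw [← card_VV' k, h1, ZMod.card] at h2
  have h3 := Nat.pow_right_injective (le_refl 2) h2
  exact ⟨(LinearEquiv.ofFinrankEq (VV k) (KK k × KK k × KK k) h3).toAddEquiv⟩

/-- an additive identification of the block with `K × K × K` -/
def eqv (k : ℕ) : VV k ≃+ KK k × KK k × KK k := (exists_equiv k).some

lemma dd_step (k : ℕ) : dd (k + 1) = dd k ∨ dd (k + 1) = dd k + 1 := by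
  have h1 : Nat.log 2 (k + 1) ≤ Nat.log 2 (k + 1 + 1) := Nat.log_mono_right (by omega)
  have h2 : Nat.log 2 (k + 1 + 1) ≤ Nat.log 2 (k + 1) + 1 := by
    have h3 : Nat.log 2 (k + 1 + 1) ≤ Nat.log 2 ((k + 1) * 2) := Nat.log_mono_right (by omega)
    rw [Nat.log_mul_base (by norm_num) (by omega)] at h3
    exact h3
  unfold dd
  omega

lemma exists_C (k : ℕ) : ∃ C : Finset (KK k), C ⊆ (univ : Finset (KK k)).erase 0 ∧
    C.card = 16 ^ (dd (k + 1) - dd k) := by
  apply Finset.exists_subset_card_eq
  rw [Finset.card_erase_of_mem (Finset.mem_univ _), Finset.card_univ, card_KK]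
  have h1 : 4 ^ 3 ≤ 4 ^ dd k := Nat.pow_le_pow_right (by norm_num) (dd_ge k)
  rcases dd_step k with h | h <;> rw [h]
  · simp; omega
  · simp; omega

def CC (k : ℕ) : Finset (KK k) := (exists_C k).choose

lemma CC_zero (k : ℕ) : (0 : KK k) ∉ CC k := fun h =>
  Finset.notMem_erase _ _ ((exists_C k).choose_spec.1 h)

lemma CC_card (k : ℕ) : (CC k).card = 16 ^ (dd (k + 1) - dd k) := (exists_C k).choose_spec.2

/-- exit set -/
def Up (k : ℕ) : Finset (VV k) := (gr (CC k)).map (eqv k).symm.toEquiv.toEmbedding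

/-- entrance set (before removing it from block 0) -/
def Dn' (k : ℕ) : Finset (VV k) := (gr {(0 : KK k)}).map (eqv k).symm.toEquiv.toEmbedding

/-- entrance set -/
def Dn (k : ℕ) : Finset (VV k) := if k = 0 then ∅ else Dn' k

/-- conductance between blocks `k` and `k + 1` -/
def cond (k : ℕ) : ℕ := 16 ^ dd (k + 1)

lemma card_Up (k : ℕ) : (Up k).card = cond k := by
  unfold Up cond
  have h0 : (4 ^ dd k) ^ 2 = 16 ^ dd k := by
    rw [← pow_mul, mul_comm, pow_mul]; norm_num
  rw [Finset.card_map, card_gr, card_KK, CC_card, h0, ← pow_add]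
  congr 1
  rcases dd_step k with h | h <;> omega

lemma card_Dn' (k : ℕ) : (Dn' k).card = 16 ^ dd k := by
  unfold Dn'
  rw [Finset.card_map, card_gr, card_KK, Finset.card_singleton, ← pow_mul, mul_comm (dd k), pow_mul]
  norm_num

lemma card_Dn (k : ℕ) : (Dn (k + 1)).card = cond k := by
  unfold Dn cond
  rw [if_neg (Nat.succ_ne_zero k), card_Dn']

lemma disj_Up_Dn' (k : ℕ) : Disjoint (Up k) (Dn' k) := by
  rw [Finset.disjoint_left]
  intro v h1 h2
  simp only [Up, Dn', Finset.mem_map] at h1 h2
  obtain ⟨a, ha, rfl⟩ := h1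
  obtain ⟨b, hb, hab⟩ := h2
  have : b = a := (eqv k).symm.toEquiv.injective hab
  subst this
  rw [mem_gr] at ha hb
  rw [Finset.mem_singleton] at hb
  rw [hb] at ha
  exact CC_zero k ha

lemma disj_Up_Dn (k : ℕ) : Disjoint (Up k) (Dn k) := by
  unfold Dn
  split_ifs
  · simp
  · exact disj_Up_Dn' k

lemma var_Up (k : ℕ) (A : Finset (VV k)) :
    ∑ v, ((hit (Up k) A v : ℝ) / (Up k).card - A.card / (Fintype.card (VV k) : ℝ)) ^ 2
      ≤ (4 : ℝ) ^ dd k := by
  have hC : (CC k).Nonempty := by
    rw [← Finset.card_pos, CC_card]; positivity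
  have := variance_transport (eqv k) (CC k) hC A
  rw [card_KK] at this
  push_cast at this
  exact this

lemma var_Dn' (k : ℕ) (A : Finset (VV k)) :
    ∑ v, ((hit (Dn' k) A v : ℝ) / (Dn' k).card - A.card / (Fintype.card (VV k) : ℝ)) ^ 2
      ≤ (4 : ℝ) ^ dd k := by
  have := variance_transport (eqv k) {0} (by simp) A
  rw [card_KK] at this
  push_cast at this
  exact this

end

end Pool.Agent.Helper74ExtAm
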