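import Pool.Agent.Helper74_ExtAm.Blocks

set_option autoImplicit false
set_option linter.unusedSectionVars false

/-!
The space, the coupling involution and the exponential moment estimate.
-/

open Finset
open scoped Classical

namespace Pool.Agent.Helper74ExtAm

noncomputable section

section Swap

variable {X I : Type*} (i j : I → X)

/-- exchange `i p` and `j p` -/
def swapFun (x : X) : X :=
  if h : ∃ p, i p = x then j h.choose else if h : ∃ p, j p = x then i h.choose else x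

variable (hi : Function.Injective i) (hj : Function.Injective j) (hd : ∀ p q, i p ≠ j q)

include hi in
lemma swapFun_i (p : I) : swapFun i j (i p) = j p := by
  have h : ∃ q, i q = i p := ⟨p, rfl⟩
  unfold swapFun
  rw [dif_pos h, hi h.choose_spec]

include hj hd in
lemma swapFun_j (p : I) : swapFun i j (j p) = i p := by
  have h0 : ¬ ∃ q, i q = j p := fun ⟨q, hq⟩ => hd q p hq
  have h : ∃ q, j q = j p := ⟨p, rfl⟩
  unfold swapFun
  rw [dif_neg h0, dif_pos h, hj h.choose_spec]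

lemma swapFun_other (x : X) (h1 : ¬ ∃ p, i p = x) (h2 : ¬ ∃ p, j p = x) : swapFun i j x = x := by
  unfold swapFun
  rw [dif_neg h1, dif_neg h2]

include hi hj hd in
lemma swapFun_invol : Function.Involutive (swapFun i j) := by
  intro x
  by_cases h1 : ∃ p, i p = x
  · obtain ⟨p, rfl⟩ := h1
    rw [swapFun_i i j hi, swapFun_j i j hj hd]
  · by_cases h2 : ∃ p, j p = x
    · obtain ⟨p, rfl⟩ := h2
      rw [swapFun_j i j hj hd, swapFun_i i j hi]
    · rw [swapFun_other i j x h1 h2, swapFun_other i j x h1 h2]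

end Swap

/-- the set -/
abbrev XX : Type := Σ k : ℕ, VV k

/-- translation by a section -/
def tr (v : ∀ k, VV k) : Equiv.Perm XX := Equiv.sigmaCongrRight fun k => Equiv.addRight (v k)

@[simp] lemma tr_apply (v : ∀ k, VV k) (k : ℕ) (x : VV k) : tr v ⟨k, x⟩ = ⟨k, x + v k⟩ := rfl

/-- bijection between exits and entrances -/
def fe (k : ℕ) : {u // u ∈ Up k} ≃ {u // u ∈ Dn (k + 1)} :=
  Finset.equivOfCardEq ((card_Up k).trans (card_Dn k).symm)

def ei (p : Σ k : ℕ, {u // u ∈ Up k}) : XX := ⟨p.1, p.2.1⟩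

def ej (p : Σ k : ℕ, {u // u ∈ Up k}) : XX := ⟨p.1 + 1, (fe p.1 p.2).1⟩

lemma ei_inj : Function.Injective ei := by
  rintro ⟨k, u⟩ ⟨k', u'⟩ h
  simp only [ei, Sigma.mk.injEq] at h
  obtain ⟨rfl, h2⟩ := h
  have h3 := eq_of_heq h2
  rw [Subtype.ext h3]

lemma ej_inj : Function.Injective ej := by
  rintro ⟨k, u⟩ ⟨k', u'⟩ h
  simp only [ej, Sigma.mk.injEq, Nat.add_right_cancel_iff] at h
  obtain ⟨rfl, h2⟩ := h
  have h3 := eq_of_heq h2
  rw [(fe k).injective (Subtype.ext h3)]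

lemma ei_ne_ej (p q : Σ k : ℕ, {u // u ∈ Up k}) : ei p ≠ ej q := by
  obtain ⟨k, u⟩ := p
  obtain ⟨k', u'⟩ := q
  intro h
  simp only [ei, ej, Sigma.mk.injEq] at h
  obtain ⟨rfl, h2⟩ := h
  have h3 := eq_of_heq h2
  exact Finset.disjoint_left.mp (disj_Up_Dn (k' + 1)) u.2 (h3 ▸ (fe k' u').2)

/-- the coupling involution -/
def tau : Equiv.Perm XX :=
  (swapFun_invol ei ej ei_inj ej_inj ei_ne_ej).toPerm

lemma tau_invol (x : XX) : tau (tau x) = x := swapFun_invol ei ej ei_inj ej_inj ei_ne_ej x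

lemma tau_up (k : ℕ) (v : VV k) (hv : v ∈ Up k) : tau ⟨k, v⟩ = ⟨k + 1, (fe k ⟨v, hv⟩).1⟩ :=
  swapFun_i ei ej ei_inj ⟨k, ⟨v, hv⟩⟩

lemma tau_dn (k : ℕ) (v : VV (k + 1)) (hv : v ∈ Dn (k + 1)) :
    tau ⟨k + 1, v⟩ = ⟨k, ((fe k).symm ⟨v, hv⟩).1⟩ := by
  have h := swapFun_j ei ej ej_inj ei_ne_ej ⟨k, (fe k).symm ⟨v, hv⟩⟩
  simp only [ej, ei, Equiv.apply_symm_apply] at h
  exact h

lemma tau_other (k : ℕ) (v : VV k) (h1 : v ∉ Up k) (h2 : v ∉ Dn k) : tau ⟨k, v⟩ = ⟨k, v⟩ := by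
  apply swapFun_other
  · rintro ⟨⟨k', u⟩, h⟩
    simp only [ei, Sigma.mk.injEq] at h
    obtain ⟨rfl, h3⟩ := h
    have h4 := eq_of_heq h3
    exact h1 (h4 ▸ u.2)
  · rintro ⟨⟨k', u⟩, h⟩
    simp only [ej, Sigma.mk.injEq] at h
    obtain ⟨rfl, h3⟩ := h
    have h4 := eq_of_heq h3
    exact h2 (h4 ▸ (fe k' u).2)

/-- the potential -/
def hh (k : ℕ) : ℝ := ∑ j ∈ range k, 1 / (cond j : ℝ)

lemma hh_succ (k : ℕ) : hh (k + 1) = hh k + 1 / (cond k : ℝ) := by
  unfold hh; rw [Finset.sum_range_succ]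

lemma cond_pos (k : ℕ) : (0 : ℝ) < cond k := by
  unfold cond; positivity

/-- increment of the potential under the involution -/
def dlt (x : XX) : ℝ := hh (tau x).1 - hh x.1

lemma dlt_eq (k : ℕ) (v : VV k) : dlt ⟨k, v⟩ =
    (if v ∈ Up k then 1 / (cond k : ℝ) else 0) - (if v ∈ Dn k then 1 / (cond (k - 1) : ℝ) else 0) := by
  unfold dlt
  by_cases h1 : v ∈ Up k
  · have h2 : v ∉ Dn k := Finset.disjoint_left.mp (disj_Up_Dn k) h1
    rw [if_pos h1, if_neg h2, tau_up k v h1]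
    simp only
    rw [hh_succ]; ring
  · by_cases h2 : v ∈ Dn k
    · rw [if_neg h1, if_pos h2]
      rcases k with _ | k
      · simp [Dn] at h2
      · rw [tau_dn k v h2]
        simp only [Nat.add_sub_cancel]
        rw [hh_succ]; ring
    · rw [if_neg h1, if_neg h2, tau_other k v h1 h2]
      ring

/-- the block contribution -/
def ZZ (k : ℕ) (A : Finset (VV k)) (y : VV k) : ℝ := ∑ x ∈ A, dlt ⟨k, x + y⟩

lemma ZZ_eq (k : ℕ) (A : Finset (VV k)) (y : VV k) :
    ZZ k A y = (hit (Up k) A y : ℝ) / cond k - (hit (Dn k) A y : ℝ) / cond (k - 1) := by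
  unfold ZZ hit
  simp_rw [dlt_eq]
  rw [Finset.sum_sub_distrib, Finset.card_filter, Finset.card_filter]
  push_cast
  rw [Finset.sum_div, Finset.sum_div]
  congr 1 <;>
  · refine Finset.sum_congr rfl fun x _ => ?_
    split_ifs <;> simp

lemma frac_up (k : ℕ) (A : Finset (VV k)) (y : VV k) :
    0 ≤ (hit (Up k) A y : ℝ) / cond k ∧ (hit (Up k) A y : ℝ) / cond k ≤ 1 := by
  constructor
  · have := cond_pos k; positivity
  · rw [div_le_one (cond_pos k), ← card_Up]
    exact_mod_cast hit_le (Up k) A y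

lemma frac_dn (k : ℕ) (A : Finset (VV k)) (y : VV k) :
    0 ≤ (hit (Dn k) A y : ℝ) / cond (k - 1) ∧ (hit (Dn k) A y : ℝ) / cond (k - 1) ≤ 1 := by
  constructor
  · have := cond_pos (k - 1); positivity
  · rcases k with _ | k
    · simp [hit, Dn]
    · rw [div_le_one (cond_pos _), Nat.add_sub_cancel, ← card_Dn]
      exact_mod_cast hit_le (Dn (k + 1)) A y

lemma ZZ_abs (k : ℕ) (A : Finset (VV k)) (y : VV k) : |ZZ k A y| ≤ 1 := by
  rw [ZZ_eq, abs_le]
  have h1 := frac_up k A y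
  have h2 := frac_dn k A y
  constructor <;> linarith [h1.1, h1.2, h2.1, h2.2]

lemma sum_frac_up (k : ℕ) (A : Finset (VV k)) :
    ∑ y, (hit (Up k) A y : ℝ) / cond k = A.card := by
  rw [← Finset.sum_div, sum_hit, card_Up]
  have := cond_pos k
  field_simp

lemma sum_frac_dn (k : ℕ) (A : Finset (VV (k + 1))) :
    ∑ y, (hit (Dn (k + 1)) A y : ℝ) / cond k = A.card := by
  rw [← Finset.sum_div, sum_hit, card_Dn]
  have := cond_pos k
  field_simp

/-- mean of the block contribution -/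
def mu (k : ℕ) (A : Finset (VV k)) : ℝ := if k = 0 then A.card / (Fintype.card (VV k) : ℝ) else 0

/-- bound for the variance of the block contribution -/
def sb (k : ℕ) : ℝ := if k = 0 then 1 else 1 / (k : ℝ) - 1 / ((k : ℝ) + 1)

lemma card_VV_pos (k : ℕ) : (0 : ℝ) < Fintype.card (VV k) := by
  rw [card_VV]; positivity

lemma sum_ZZ (k : ℕ) (A : Finset (VV k)) :
    ∑ y, ZZ k A y = Fintype.card (VV k) * mu k A := by
  simp_rw [ZZ_eq]
  rw [Finset.sum_sub_distrib, sum_frac_up]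
  have hV := card_VV_pos k
  rcases k with _ | k
  · have hz : ∀ y ∈ (univ : Finset (VV 0)), (hit (Dn 0) A y : ℝ) / (cond (0 - 1) : ℝ) = 0 := by
      intro y _
      have h0 : hit (Dn 0) A y = 0 := by
        unfold hit Dn
        rw [if_pos rfl, Finset.card_eq_zero, Finset.filter_eq_empty_iff]
        intro a _ ha
        exact Finset.notMem_empty _ ha
      rw [h0, Nat.cast_zero, zero_div]
    rw [Finset.sum_eq_zero hz, sub_zero]
    unfold mu
    rw [if_pos rfl, mul_div_cancel₀ _ hV.ne']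
  · rw [Nat.add_sub_cancel, sum_frac_dn]
    unfold mu
    rw [if_neg (Nat.succ_ne_zero k), sub_self, mul_zero]

lemma four_le (k : ℕ) (hk : k ≠ 0) : 4 / (16 : ℝ) ^ dd k ≤ 1 / (k : ℝ) - 1 / ((k : ℝ) + 1) := by
  have h1 : k + 1 < 2 ^ (Nat.log 2 (k + 1) + 1) := Nat.lt_pow_succ_log_self (by norm_num) _
  have h2 : ((k : ℝ) + 1) ≤ 2 ^ (Nat.log 2 (k + 1) + 1) := by exact_mod_cast h1.le
  have h3 : ((k : ℝ) + 1) ^ 2 ≤ (2 ^ (Nat.log 2 (k + 1) + 1)) ^ 2 :=
    pow_le_pow_left₀ (by positivity) h2 2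
  have h4 : (4 : ℝ) * (2 ^ (Nat.log 2 (k + 1) + 1)) ^ 2 ≤ 16 ^ dd k := by
    have h5 : (4 : ℝ) * (2 ^ (Nat.log 2 (k + 1) + 1)) ^ 2 = 2 ^ (2 + (Nat.log 2 (k + 1) + 1) * 2) := by
      rw [pow_add (2 : ℝ) 2 _, pow_mul (2 : ℝ) _ 2]; norm_num
    have h6 : (16 : ℝ) ^ dd k = 2 ^ (4 * dd k) := by
      rw [pow_mul]; norm_num
    rw [h5, h6]
    apply pow_le_pow_right₀ (by norm_num)
    unfold dd
    omega
  have hk0 : (0 : ℝ) < k := by exact_mod_cast Nat.pos_of_ne_zero hk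
  have h7 : 4 / (16 : ℝ) ^ dd k ≤ 4 / (4 * ((k : ℝ) + 1) ^ 2) := by
    apply div_le_div_of_nonneg_left (by norm_num) (by positivity)
    nlinarith
  refine h7.trans ?_
  have h8 : 1 / (k : ℝ) - 1 / ((k : ℝ) + 1) = 1 / (k * (k + 1)) := by
    field_simp; ring
  rw [h8]
  have h9 : 4 / (4 * ((k : ℝ) + 1) ^ 2) = 1 / ((k + 1) ^ 2) := by field_simp
  rw [h9]
  apply one_div_le_one_div_of_le (by positivity)
  nlinarith

lemma sum_ZZ_sq (k : ℕ) (A : Finset (VV k)) :
    ∑ y, ZZ k A y ^ 2 ≤ Fintype.card (VV k) * sb k := by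
  unfold sb
  by_cases hk : k = 0
  · rw [if_pos hk, mul_one]
    have h1 : ∀ y ∈ (univ : Finset (VV k)), ZZ k A y ^ 2 ≤ 1 := by
      intro y _
      have := ZZ_abs k A y
      rw [← sq_abs]
      nlinarith [abs_nonneg (ZZ k A y)]
    refine (Finset.sum_le_sum h1).trans ?_
    simp
  · rw [if_neg hk]
    have h1 := var_Up k A
    have h2 := var_Dn' k A
    rw [card_Up] at h1
    have hdn : Dn k = Dn' k := by unfold Dn; rw [if_neg hk]
    have hc : (Dn' k).card = cond (k - 1) := by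
      rw [card_Dn', cond, Nat.sub_add_cancel (Nat.one_le_iff_ne_zero.mpr hk)]
    rw [hc] at h2
    have h3 : ∀ y, ZZ k A y ^ 2 ≤
        2 * ((hit (Up k) A y : ℝ) / cond k - A.card / (Fintype.card (VV k) : ℝ)) ^ 2 +
        2 * ((hit (Dn' k) A y : ℝ) / cond (k - 1) - A.card / (Fintype.card (VV k) : ℝ)) ^ 2 := by
      intro y
      rw [ZZ_eq, hdn]
      set a := (hit (Up k) A y : ℝ) / cond k
      set b := (hit (Dn' k) A y : ℝ) / cond (k - 1)
      set c := (A.card : ℝ) / (Fintype.card (VV k) : ℝ)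
      nlinarith [sq_nonneg (a - c + (b - c))]
    refine (Finset.sum_le_sum fun y _ => h3 y).trans ?_
    rw [Finset.sum_add_distrib, ← Finset.mul_sum, ← Finset.mul_sum]
    have h4 : (Fintype.card (VV k) : ℝ) * (4 / (16 : ℝ) ^ dd k) = 4 * 4 ^ dd k := by
      rw [card_VV]
      push_cast
      have : (64 : ℝ) ^ dd k = 16 ^ dd k * 4 ^ dd k := by rw [← mul_pow]; norm_num
      rw [this]
      field_simp
    have h5 := mul_le_mul_of_nonneg_left (four_le k hk) (card_VV_pos k).le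
    rw [h4] at h5
    linarith

lemma exp_le_quad (x : ℝ) (hx : |x| ≤ 1) : Real.exp x ≤ 1 + x + x ^ 2 := by
  have := Real.abs_exp_sub_one_sub_id_le hx
  have h2 := (abs_le.mp this).2
  linarith

lemma block_exp {V : Type*} [Fintype V] (Z : V → ℝ) (μ s l : ℝ) (hl0 : 0 ≤ l)
    (hl1 : l ≤ 1) (hZ : ∀ y, |Z y| ≤ 1) (h1 : ∑ y, Z y = Fintype.card V * μ)
    (h2 : ∑ y, Z y ^ 2 ≤ Fintype.card V * s) :
    ∑ y, Real.exp (-l * Z y) ≤ Fintype.card V * Real.exp (-l * μ + l ^ 2 * s) := by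
  have h3 : ∀ y ∈ (univ : Finset V), Real.exp (-l * Z y) ≤ 1 + (-l * Z y) + l ^ 2 * Z y ^ 2 := by
    intro y _
    have h4 : |-l * Z y| ≤ 1 := by
      rw [abs_mul, abs_neg, abs_of_nonneg hl0]
      exact mul_le_one₀ hl1 (abs_nonneg _) (hZ y)
    have h5 := exp_le_quad _ h4
    have h6 : (-l * Z y) ^ 2 = l ^ 2 * Z y ^ 2 := by ring
    linarith
  refine (Finset.sum_le_sum h3).trans ?_
  rw [Finset.sum_add_distrib, Finset.sum_add_distrib, ← Finset.mul_sum, ← Finset.mul_sum, h1]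
  rw [Finset.sum_const, Finset.card_univ, nsmul_eq_mul, mul_one]
  have h7 : l ^ 2 * ∑ y, Z y ^ 2 ≤ l ^ 2 * (Fintype.card V * s) :=
    mul_le_mul_of_nonneg_left h2 (sq_nonneg l)
  have h8 := Real.add_one_le_exp (-l * μ + l ^ 2 * s)
  have h9 : (Fintype.card V : ℝ) * (-l * μ + l ^ 2 * s + 1)
      ≤ Fintype.card V * Real.exp (-l * μ + l ^ 2 * s) :=
    mul_le_mul_of_nonneg_left h8 (by positivity)
  linarith

/-- extension of a finite section by zero -/
def extv (K : ℕ) (v : WK K × WK K) : ∀ k, VV k := fun k =>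
  if h : k < K + 1 then (v.1 ⟨k, h⟩, v.2 ⟨k, h⟩) else 0

lemma extv_fin (K : ℕ) (v : WK K × WK K) (k : Fin (K + 1)) : extv K v k = (v.1 k, v.2 k) := by
  unfold extv
  rw [dif_pos k.2]

/-- slice of a finite set -/
def sl (A : Finset XX) (k : ℕ) : Finset (VV k) := (univ : Finset (VV k)).filter fun v => ⟨k, v⟩ ∈ A

lemma sum_slices (K : ℕ) (A : Finset XX) (hA : ∀ x ∈ A, x.1 ≤ K) (f : XX → ℝ) :
    ∑ x ∈ A, f x = ∑ k : Fin (K + 1), ∑ v ∈ sl A k, f ⟨k, v⟩ := by
  have h : A = (range (K + 1)).sigma fun k => sl A k := by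
    ext ⟨k, v⟩
    simp only [Finset.mem_sigma, Finset.mem_range, sl, Finset.mem_filter, Finset.mem_univ, true_and]
    constructor
    · intro h
      exact ⟨by have := hA _ h; simp only at this; omega, h⟩
    · exact fun h => h.2
  conv_lhs => rw [h]
  rw [Finset.sum_sigma, Finset.sum_range]

/-- `W^K × W^K` as a product of blocks -/
def prodEquiv (K : ℕ) : (WK K × WK K) ≃ (∀ k : Fin (K + 1), VV k) where
  toFun v := fun k => (v.1 k, v.2 k)
  invFun f := (fun k => (f k).1, fun k => (f k).2)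
  left_inv _ := rfl
  right_inv _ := rfl

lemma sum_sb (K : ℕ) : ∑ k : Fin (K + 1), sb k ≤ 2 := by
  have h : ∀ K : ℕ, ∑ k : Fin (K + 1), sb k = 2 - 1 / ((K : ℝ) + 1) := by
    intro K
    induction K with
    | zero => simp [sb]; norm_num
    | succ K ih =>
      rw [Fin.sum_univ_castSucc]
      simp only [Fin.val_castSucc, Fin.val_last]
      rw [ih]
      unfold sb
      rw [if_neg (Nat.succ_ne_zero K)]
      push_cast
      ring
  rw [h]
  have : (0 : ℝ) < 1 / ((K : ℝ) + 1) := by positivity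
  linarith

/-- **The exponential moment estimate.** -/
theorem expect (K : ℕ) (A : Finset XX) (hA : ∀ x ∈ A, x.1 ≤ K) (l : ℝ) (hl0 : 0 ≤ l) (hl1 : l ≤ 1) :
    ∑ v : WK K × WK K, Real.exp (-l * ∑ x ∈ A, dlt (tr (extv K v) x))
      ≤ Fintype.card (WK K × WK K) *
        Real.exp (-l * ((sl A 0).card / (Fintype.card (VV 0) : ℝ)) + 2 * l ^ 2) := by
  have h1 : ∀ v : WK K × WK K, Real.exp (-l * ∑ x ∈ A, dlt (tr (extv K v) x))
      = ∏ k : Fin (K + 1), Real.exp (-l * ZZ k (sl A k) (prodEquiv K v k)) := by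
    intro v
    rw [sum_slices K A hA, Finset.mul_sum, Real.exp_sum]
    refine Finset.prod_congr rfl fun k _ => ?_
    congr 2
    unfold ZZ
    refine Finset.sum_congr rfl fun x _ => ?_
    rw [tr_apply, extv_fin]
    rfl
  simp_rw [h1]
  rw [Equiv.sum_comp (prodEquiv K)
    (fun f => ∏ k : Fin (K + 1), Real.exp (-l * ZZ k (sl A k) (f k)))]
  have h2 : ∑ f : (∀ k : Fin (K + 1), VV k), ∏ k : Fin (K + 1), Real.exp (-l * ZZ k (sl A k) (f k))
      = ∏ k : Fin (K + 1), ∑ y : VV k, Real.exp (-l * ZZ k (sl A k) y) := by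
    rw [Finset.prod_univ_sum, Fintype.piFinset_univ]
  rw [h2]
  have h3 : ∏ k : Fin (K + 1), ∑ y : VV k, Real.exp (-l * ZZ k (sl A k) y)
      ≤ ∏ k : Fin (K + 1), (Fintype.card (VV k) * Real.exp (-l * mu k (sl A k) + l ^ 2 * sb k)) := by
    apply Finset.prod_le_prod
    · intro k _
      exact Finset.sum_nonneg fun _ _ => (Real.exp_pos _).le
    · intro k _
      exact block_exp _ _ _ l hl0 hl1 (ZZ_abs k _) (sum_ZZ k _) (sum_ZZ_sq k _)
  refine h3.trans ?_
  rw [Finset.prod_mul_distrib, ← Real.exp_sum]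
  have h4 : (∏ k : Fin (K + 1), (Fintype.card (VV k) : ℝ)) = Fintype.card (WK K × WK K) := by
    rw [Fintype.card_congr (prodEquiv K), Fintype.card_pi]
    push_cast
    rfl
  rw [h4]
  apply mul_le_mul_of_nonneg_left _ (by positivity)
  apply Real.exp_le_exp.mpr
  rw [Finset.sum_add_distrib, ← Finset.mul_sum, ← Finset.mul_sum]
  have h5 : ∑ k : Fin (K + 1), mu k (sl A k) = (sl A 0).card / (Fintype.card (VV 0) : ℝ) := by
    rw [Finset.sum_eq_single (0 : Fin (K + 1))]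
    · show mu 0 (sl A 0) = _
      unfold mu
      rw [if_pos rfl]
    · intro k _ hk
      unfold mu
      rw [if_neg]
      intro h
      exact hk (Fin.ext h)
    · intro h; exact absurd (Finset.mem_univ _) h
  rw [h5]
  have h6 := sum_sb K
  have h7 : l ^ 2 * ∑ k : Fin (K + 1), sb k ≤ l ^ 2 * 2 := mul_le_mul_of_nonneg_left h6 (sq_nonneg l)
  linarith

end

end Pool.Agent.Helper74ExtAm
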