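import Pool.Agent.Helper74_ExtAm.Main

set_option autoImplicit false
set_option linter.unusedSectionVars false

/-!
Transitivity and polynomial growth.
-/

open Finset
open scoped Classical

namespace Pool.Agent.Helper74ExtAm

noncomputable section

/-- The homomorphism from the free group. -/
def act : FreeGroup Gen →* Equiv.Perm XX := FreeGroup.lift gen

/-- the image -/
def RR : Subgroup (Equiv.Perm XX) := act.range

lemma gen_mem (i : Gen) : gen i ∈ RR := ⟨FreeGroup.of i, by simp [act]⟩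

lemma gm_mem : gm ∈ RR := gen_mem (Sum.inl 0)
lemma ga_mem : ga ∈ RR := gen_mem (Sum.inl 1)
lemma gb_mem : gb ∈ RR := gen_mem (Sum.inl 2)
lemma tau_mem : tau ∈ RR := gen_mem (Sum.inl 3)
lemma gc_mem (c : Fin 3 → ZMod 2) : gc c ∈ RR := gen_mem (Sum.inr c)

lemma sh_conj (L : ∀ k, WW k →ₗ[ZMod 2] WW k) (v : ∀ k, VV k) :
    sh L * tr v = tr (fun k => ((v k).1 + L k (v k).2, (v k).2)) * sh L := by
  ext ⟨k, x⟩ : 1
  rw [Equiv.Perm.mul_apply, Equiv.Perm.mul_apply, tr_apply, sh_apply, sh_apply, tr_apply]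
  congr 1
  simp only [Prod.mk_add_mk, Prod.fst_add, Prod.snd_add, map_add]
  congr 1
  abel

lemma gb_conj (v : ∀ k, VV k) :
    gb * tr v = tr (fun k => ((v k).1, (v k).1 + (v k).2)) * gb := by
  ext ⟨k, x⟩ : 1
  rw [Equiv.Perm.mul_apply, Equiv.Perm.mul_apply, tr_apply, gb_apply, gb_apply, tr_apply]
  congr 1
  simp only [Prod.mk_add_mk, Prod.fst_add, Prod.snd_add]
  congr 1
  abel

lemma tr_mul_mem {v v' : ∀ k, VV k} (h : tr v ∈ RR) (h' : tr v' ∈ RR) : tr (v + v') ∈ RR := by
  rw [tr_add]; exact RR.mul_mem h h'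

lemma sh_tr_mem (L : ∀ k, WW k →ₗ[ZMod 2] WW k) (hL : sh L ∈ RR) (v : ∀ k, VV k)
    (h : tr v ∈ RR) : tr (fun k => ((v k).1 + L k (v k).2, (v k).2)) ∈ RR := by
  have h1 : tr (fun k => ((v k).1 + L k (v k).2, (v k).2)) = sh L * tr v * (sh L)⁻¹ := by
    rw [sh_conj]; group
  rw [h1]
  exact RR.mul_mem (RR.mul_mem hL h) (RR.inv_mem hL)

lemma gb_tr_mem (v : ∀ k, VV k) (h : tr v ∈ RR) :
    tr (fun k => ((v k).1, (v k).1 + (v k).2)) ∈ RR := by
  have h1 : tr (fun k => ((v k).1, (v k).1 + (v k).2)) = gb * tr v * gb⁻¹ := by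
    rw [gb_conj]; group
  rw [h1]
  exact RR.mul_mem (RR.mul_mem gb_mem h) (RR.inv_mem gb_mem)

/-- sections whose translations are available -/
def Good (a : ∀ k, WW k) : Prop :=
  tr (fun k => (a k, 0)) ∈ RR ∧ tr (fun k => (0, a k)) ∈ RR

lemma good_of_left (a : ∀ k, WW k) (h : tr (fun k => (a k, 0)) ∈ RR) : Good a := by
  refine ⟨h, ?_⟩
  have h1 := gb_tr_mem _ h
  have h2 := tr_mul_mem h h1
  have h3 : ((fun k => ((a k, 0) : VV k)) + fun k => ((a k), (a k) + 0)) = fun k => (0, a k) := by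
    funext k
    simp only [Pi.add_apply, Prod.mk_add_mk, two_torsion, add_zero, zero_add]
  rw [h3] at h2
  exact h2

lemma good_w : Good w0 := good_of_left _ gm_mem

lemma Tc_single (k : ℕ) (j : Fin 3) : Tc (TT k) (Pi.single j 1) = TT k j := by
  refine LinearMap.ext fun x => ?_
  rw [Tc_apply, Finset.sum_eq_single j]
  · rw [Pi.single_eq_same, one_smul]
  · intro j' _ hj'
    rw [Pi.single_eq_of_ne hj', zero_smul]
  · intro h; exact absurd (Finset.mem_univ j) h

lemma good_T (j : Fin 3) (a : ∀ k, WW k) (h : Good a) : Good (fun k => TT k j (a k)) := by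
  apply good_of_left
  have h1 : sh (fun k => TT k j) ∈ RR := by
    have := gc_mem (Pi.single j 1)
    unfold gc at this
    simp_rw [Tc_single] at this
    exact this
  have h2 := sh_tr_mem _ h1 _ h.2
  have h3 := tr_mul_mem h2 h.2
  have h4 : ((fun k => ((0 + TT k j (a k), a k) : VV k)) + fun k => (0, a k))
      = fun k => (TT k j (a k), 0) := by
    funext k
    simp only [Pi.add_apply, Prod.mk_add_mk, two_torsion, add_zero, zero_add]
  rw [h4] at h3
  exact h3

lemma good_word (u : List (Fin 3)) : Good (fun k => wd (TT k) (w0 k) u) := by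
  induction u with
  | nil => exact good_w
  | cons j u ih => exact good_T j _ ih

lemma good_zero : Good 0 := by
  apply good_of_left
  have : tr (fun k => ((0 : ∀ k, WW k) k, 0)) = 1 := tr_zero
  rw [this]
  exact RR.one_mem

lemma good_add (a b : ∀ k, WW k) (ha : Good a) (hb : Good b) : Good (a + b) := by
  apply good_of_left
  have h := tr_mul_mem ha.1 hb.1
  have h3 : ((fun k => ((a k, 0) : VV k)) + fun k => ((b k), 0)) = fun k => ((a + b) k, 0) := by
    funext k
    simp only [Pi.add_apply, Prod.mk_add_mk, add_zero]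
  rw [h3] at h
  exact h

lemma exists_good (k : ℕ) (a : WW k) : ∃ s, Good s ∧ s k = a := by
  let f : ZMod (nn k) → (∀ k', WW k') := fun x =>
    if a x = 0 then 0 else fun k' => wd (TT k') (w0 k') (pw k x.val)
  refine ⟨∑ x, f x, ?_, ?_⟩
  · apply Finset.sum_induction f Good good_add good_zero
    intro x _
    simp only [f]
    split_ifs
    · exact good_zero
    · exact good_word _
  · rw [Finset.sum_apply, ← Finset.univ_sum_single a]
    refine Finset.sum_congr rfl fun x _ => ?_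
    simp only [f]
    split_ifs with h
    · rw [h, Pi.single_zero]; rfl
    · show wd (TT k) (w0 k) (pw k x.val) = _
      rw [wd_single, ZMod.natCast_zmod_val]
      rcases zmod2_cases (a x) with h' | h'
      · exact absurd h' h
      · rw [h']

lemma same_block (k : ℕ) (v v' : VV k) : ∃ g ∈ RR, g ⟨k, v⟩ = (⟨k, v'⟩ : XX) := by
  obtain ⟨s, hs, hsk⟩ := exists_good k (v'.1 - v.1)
  obtain ⟨s', hs', hsk'⟩ := exists_good k (v'.2 - v.2)
  refine ⟨tr ((fun k => (s k, 0)) + fun k => (0, s' k)), tr_mul_mem hs.1 hs'.2, ?_⟩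
  rw [tr_apply]
  congr 1
  rw [Pi.add_apply, hsk, hsk']
  ext1 <;> simp

lemma Up_nonempty (k : ℕ) : (Up k).Nonempty := by
  rw [← Finset.card_pos, card_Up]
  unfold cond; positivity

/-- base point -/
def x00 : XX := ⟨0, 0⟩

lemma reach (k : ℕ) : ∀ v : VV k, ∃ g ∈ RR, g x00 = ⟨k, v⟩ := by
  induction k with
  | zero => intro v; exact same_block 0 0 v
  | succ k ih =>
    intro v
    obtain ⟨p, hp⟩ := Up_nonempty k
    obtain ⟨g, hg, hgx⟩ := ih p
    obtain ⟨g', hg', hgx'⟩ := same_block (k + 1) (fe k ⟨p, hp⟩).1 v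
    refine ⟨g' * tau * g, RR.mul_mem (RR.mul_mem hg' tau_mem) hg, ?_⟩
    rw [Equiv.Perm.mul_apply, Equiv.Perm.mul_apply, hgx, tau_up k p hp, hgx']

/-- the action of the free group -/
instance instAct : MulAction (FreeGroup Gen) XX := MulAction.compHom XX act

lemma smul_eq (g : FreeGroup Gen) (x : XX) : g • x = act g x := rfl

theorem pretransitive : MulAction.IsPretransitive (FreeGroup Gen) XX := by
  constructor
  intro x y
  obtain ⟨_, ⟨g, rfl⟩, hg⟩ := reach x.1 x.2
  obtain ⟨_, ⟨h, rfl⟩, hh⟩ := reach y.1 y.2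
  refine ⟨h * g⁻¹, ?_⟩
  rw [smul_eq, map_mul, map_inv, Equiv.Perm.mul_apply]
  have h1 : (act g)⁻¹ x = x00 := by
    rw [Equiv.Perm.inv_def, Equiv.symm_apply_eq]
    exact hg.symm
  rw [h1]
  exact hh

/-! ### growth -/

lemma tau_fst (x : XX) : (tau x).1 ≤ x.1 + 1 := by
  obtain ⟨k, v⟩ := x
  by_cases h1 : v ∈ Up k
  · rw [tau_up k v h1]
  · by_cases h2 : v ∈ Dn k
    · rcases k with _ | k
      · simp [Dn] at h2
      · rw [tau_dn k v h2]
        simp only
        omega
    · rw [tau_other k v h1 h2]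
      simp

lemma gen_fst (i : Gen) (x : XX) : (gen i x).1 ≤ x.1 + 1 := by
  obtain ⟨k, v⟩ := x
  rcases i with i | c
  · fin_cases i
    · exact Nat.le_succ k
    · exact Nat.le_succ k
    · exact Nat.le_succ k
    · exact tau_fst _
  · exact Nat.le_succ k

lemma gen_symm_fst (i : Gen) (x : XX) : ((gen i).symm x).1 ≤ x.1 + 1 := by
  rcases i with i | c
  · fin_cases i
    · have : (gm.symm x).1 = x.1 := tr_symm_fst _ x
      exact this.le.trans (Nat.le_succ _)
    · exact Nat.le_succ x.1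
    · exact Nat.le_succ x.1
    · exact tau_fst x
  · exact Nat.le_succ x.1

/-- generating set -/
def SS : Finset (FreeGroup Gen) := (univ : Finset Gen).image FreeGroup.of

lemma SS_closure : Subgroup.closure (SS : Set (FreeGroup Gen)) = ⊤ := by
  unfold SS
  rw [Finset.coe_image, Finset.coe_univ, Set.image_univ]
  exact FreeGroup.closure_range_of Gen

lemma step_fst (s : FreeGroup Gen) (hs : s ∈ SS ∨ s⁻¹ ∈ SS) (x : XX) : (s • x).1 ≤ x.1 + 1 := by
  rcases hs with hs | hs
  · simp only [SS, Finset.mem_image, Finset.mem_univ, true_and] at hs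
    obtain ⟨i, rfl⟩ := hs
    rw [smul_eq]
    have : act (FreeGroup.of i) = gen i := by simp [act]
    rw [this]
    exact gen_fst i x
  · simp only [SS, Finset.mem_image, Finset.mem_univ, true_and] at hs
    obtain ⟨i, hi⟩ := hs
    have h1 : s = (FreeGroup.of i)⁻¹ := by rw [hi, inv_inv]
    rw [smul_eq, h1, map_inv]
    have : act (FreeGroup.of i) = gen i := by simp [act]
    rw [this]
    exact gen_symm_fst i x

lemma prod_fst (l : List (FreeGroup Gen)) (hl : ∀ s ∈ l, s ∈ SS ∨ s⁻¹ ∈ SS) :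
    (l.prod • x00).1 ≤ l.length := by
  induction l with
  | nil => simp [x00]
  | cons s l ih =>
    rw [List.prod_cons, mul_smul, List.length_cons]
    refine (step_fst s (hl s (by simp)) _).trans ?_
    exact Nat.succ_le_succ (ih fun s hs => hl s (by simp [hs]))

lemma card_le (k : ℕ) : 64 ^ dd k ≤ (8 * (k + 1)) ^ 6 := by
  have h1 : 2 ^ Nat.log 2 (k + 1) ≤ k + 1 := Nat.pow_log_le_self 2 (Nat.succ_ne_zero k)
  have h2 : 2 ^ dd k ≤ 8 * (k + 1) := by
    unfold dd
    rw [pow_add]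
    omega
  have h3 : 64 ^ dd k = (2 ^ dd k) ^ 6 := by
    rw [← pow_mul, mul_comm, pow_mul]
    norm_num
  rw [h3]
  exact Nat.pow_le_pow_left h2 6

theorem growth (n : ℕ) :
    Set.ncard {y : XX | ∃ l : List (FreeGroup Gen), l.length ≤ n ∧
      (∀ s ∈ l, s ∈ SS ∨ s⁻¹ ∈ SS) ∧ l.prod • x00 = y} ≤ 262144 * (n + 1) ^ 7 := by
  have h1 : {y : XX | ∃ l : List (FreeGroup Gen), l.length ≤ n ∧
      (∀ s ∈ l, s ∈ SS ∨ s⁻¹ ∈ SS) ∧ l.prod • x00 = y} ⊆
      ↑((range (n + 1)).sigma fun k => (univ : Finset (VV k))) := by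
    rintro y ⟨l, hl, hs, rfl⟩
    have := prod_fst l hs
    simp only [Finset.coe_sigma, Set.mem_sigma_iff]
    exact ⟨by simp only [Finset.coe_range, Set.mem_Iio]; omega, by simp⟩
  refine (Set.ncard_le_ncard h1 (Finset.finite_toSet _)).trans ?_
  rw [Set.ncard_coe_finset, Finset.card_sigma]
  have h2 : ∀ k ∈ range (n + 1), (univ : Finset (VV k)).card ≤ (8 * (n + 1)) ^ 6 := by
    intro k hk
    rw [Finset.card_univ, card_VV]
    refine (card_le k).trans (Nat.pow_le_pow_left ?_ 6)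
    have := Finset.mem_range.mp hk
    omega
  refine (Finset.sum_le_sum h2).trans ?_
  rw [Finset.sum_const, Finset.card_range, smul_eq_mul, mul_pow]
  apply le_of_eq
  ring

end

end Pool.Agent.Helper74ExtAm
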