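import Mathlib

set_option autoImplicit false
set_option linter.unusedSectionVars false

/-!
From an invariant finitely additive mean to almost invariant vectors in l^2.
-/

open Finset
open scoped Classical

namespace Pool.Agent.Helper74ExtAm

noncomputable section

section Simple

variable {Ω : Type*} (m : Set Ω → ℝ)
  (m_nonneg : ∀ A, 0 ≤ m A) (m_univ : m Set.univ = 1)
  (m_add : ∀ A B, Disjoint A B → m (A ∪ B) = m A + m B)

include m_add in
lemma m_empty : m ∅ = 0 := by
  have := m_add ∅ ∅ (by simp)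
  simp at this
  exact this

include m_add in
lemma m_biUnion {β : Type*} (c : Ω → β) (R : Finset β) :
    m {ω | c ω ∈ R} = ∑ r ∈ R, m {ω | c ω = r} := by
  induction R using Finset.induction_on with
  | empty =>
    simp only [Finset.notMem_empty, Finset.sum_empty]
    exact m_empty m m_add
  | insert a R ha ih =>
    rw [Finset.sum_insert ha, ← ih, ← m_add]
    · congr 1
      ext ω
      simp
    · rw [Set.disjoint_left]
      intro ω h1 h2
      have h1' : c ω = a := h1
      have h2' : c ω ∈ R := h2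
      rw [h1'] at h2'
      exact ha h2'

include m_add in
lemma m_comp {β : Type*} (c : Ω → β) (R : Finset β) (hR : ∀ ω, c ω ∈ R) (f : β → ℤ)
    (I : Finset ℤ) (hI : ∀ r ∈ R, f r ∈ I) :
    ∑ r ∈ R, (f r : ℝ) * m {ω | c ω = r} = ∑ n ∈ I, (n : ℝ) * m {ω | f (c ω) = n} := by
  rw [← Finset.sum_fiberwise_of_maps_to hI]
  refine Finset.sum_congr rfl fun n _ => ?_
  have h1 : {ω | f (c ω) = n} = {ω | c ω ∈ R.filter (fun r => f r = n)} := by
    ext ω
    simp [hR ω]
  rw [h1, m_biUnion m m_add, Finset.mul_sum]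
  refine Finset.sum_congr rfl fun r hr => ?_
  rw [(Finset.mem_filter.mp hr).2]

include m_nonneg m_univ m_add in
/-- An invariant mean annihilates bounded flows. -/
lemma no_flow {ι : Type*} [Fintype ι] (s : ι → Equiv.Perm Ω)
    (m_inv : ∀ i A, m (s i ⁻¹' A) = m A) (g : ι → Ω → ℝ) (B : ℝ) (hB : ∀ i ω, |g i ω| ≤ B)
    (α : ℝ) (hα : 0 < α) (hg : ∀ ω, α ≤ ∑ i, (g i (s i ω) - g i ω)) : False := by
  set n : ℝ := (Fintype.card ι : ℝ) with hn
  have hn0 : 0 ≤ n := by positivity
  set η : ℝ := α / (n + 1) with hη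
  have hη0 : 0 < η := by positivity
  let a : ι → Ω → ℤ := fun i ω => ⌊g i ω / η⌋
  let M : ℤ := ⌈B / η⌉ + 1
  have haM : ∀ i ω, a i ω ∈ Finset.Icc (-M) M := by
    intro i ω
    have h1 := abs_le.mp (hB i ω)
    have h2 : g i ω / η ≤ B / η := div_le_div_of_nonneg_right h1.2 hη0.le
    have h3 : -(B / η) ≤ g i ω / η := by
      rw [← neg_div]; exact div_le_div_of_nonneg_right h1.1 hη0.le
    have h4 := Int.le_ceil (B / η)
    rw [Finset.mem_Icc]
    constructor
    · rw [Int.le_floor]
      simp only [M]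
      push_cast
      linarith
    · have : (a i ω : ℝ) ≤ g i ω / η := Int.floor_le _
      have h5 : (a i ω : ℝ) ≤ (M : ℝ) := by
        simp only [M]
        push_cast
        linarith
      exact_mod_cast h5
  let c : Ω → (ι → ℤ × ℤ) := fun ω i => (a i ω, a i (s i ω))
  let R : Finset (ι → ℤ × ℤ) := Fintype.piFinset fun _ => Finset.Icc (-M) M ×ˢ Finset.Icc (-M) M
  have hR : ∀ ω, c ω ∈ R := by
    intro ω
    simp only [R, Fintype.mem_piFinset, Finset.mem_product, c]
    exact fun i => ⟨haM i ω, haM i (s i ω)⟩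
  have hRmem : ∀ r ∈ R, ∀ i, (r i).1 ∈ Finset.Icc (-M) M ∧ (r i).2 ∈ Finset.Icc (-M) M := by
    intro r hr i
    simp only [R, Fintype.mem_piFinset, Finset.mem_product] at hr
    exact hr i
  have key : ∀ i, ∑ r ∈ R, ((r i).2 : ℝ) * m {ω | c ω = r}
      = ∑ r ∈ R, ((r i).1 : ℝ) * m {ω | c ω = r} := by
    intro i
    rw [m_comp m m_add c R hR (fun r => (r i).2) (Finset.Icc (-M) M) (fun r hr => (hRmem r hr i).2),
      m_comp m m_add c R hR (fun r => (r i).1) (Finset.Icc (-M) M) (fun r hr => (hRmem r hr i).1)]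
    refine Finset.sum_congr rfl fun k _ => ?_
    congr 1
    rw [← m_inv i {ω | (c ω i).1 = k}]
    rfl
  have hsum : ∑ r ∈ R, (∑ i, (((r i).2 : ℝ) - (r i).1)) * m {ω | c ω = r} = 0 := by
    simp_rw [Finset.sum_mul]
    rw [Finset.sum_comm]
    apply Finset.sum_eq_zero
    intro i _
    simp_rw [sub_mul]
    rw [Finset.sum_sub_distrib, key, sub_self]
  have htot : ∑ r ∈ R, m {ω | c ω = r} = 1 := by
    rw [← m_biUnion m m_add, ← m_univ]
    congr 1
    ext ω
    simp [hR ω]
  have hlow : ∀ r ∈ R, 1 * m {ω | c ω = r} ≤ (∑ i, (((r i).2 : ℝ) - (r i).1)) * m {ω | c ω = r} := by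
    intro r _
    by_cases hr : ({ω | c ω = r} : Set Ω) = ∅
    · rw [hr, m_empty m m_add]; simp
    · obtain ⟨ω, hω⟩ := Set.nonempty_iff_ne_empty.mpr hr
      have hω' : c ω = r := hω
      apply mul_le_mul_of_nonneg_right _ (m_nonneg _)
      have h1 : ∀ i, (g i (s i ω) - g i ω) / η - 1 ≤ (((r i).2 : ℝ) - (r i).1) := by
        intro i
        rw [← hω']
        simp only [c, a]
        have h2 := Int.lt_floor_add_one (g i (s i ω) / η)
        have h3 := Int.floor_le (g i ω / η)
        rw [sub_div]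
        linarith
      have h2 : ∑ i, ((g i (s i ω) - g i ω) / η - 1) ≤ ∑ i, (((r i).2 : ℝ) - (r i).1) :=
        Finset.sum_le_sum fun i _ => h1 i
      refine le_trans ?_ h2
      rw [Finset.sum_sub_distrib, ← Finset.sum_div, Finset.sum_const, Finset.card_univ, nsmul_eq_mul,
        mul_one]
      have h3 : n + 1 ≤ (∑ i, (g i (s i ω) - g i ω)) / η := by
        rw [le_div_iff₀ hη0, hη]
        have : (n + 1) * (α / (n + 1)) = α := by field_simp
        rw [this]
        exact hg ω
      linarith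
  have := Finset.sum_le_sum hlow
  rw [hsum] at this
  simp only [one_mul] at this
  rw [htot] at this
  linarith

end Simple

section L2

variable {Ω : Type*}

/-- The Hilbert space `ℓ²(Ω)`. -/
abbrev L2 (Ω : Type*) : Type _ := lp (fun _ : Ω => ℝ) 2

lemma memlp_perm (e : Equiv.Perm Ω) (f : L2 Ω) : Memℓp (fun ω => f (e.symm ω)) 2 := by
  have h := lp.memℓp f
  rw [memℓp_gen_iff (by norm_num)] at h ⊢
  exact (Equiv.summable_iff e.symm).mpr h

lemma norm_sq_eq (f : L2 Ω) : ‖f‖ ^ 2 = ∑' ω, f ω ^ 2 := by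
  have h := lp.norm_rpow_eq_tsum (p := 2) (by norm_num) f
  simp only [ENNReal.toReal_ofNat, Real.rpow_ofNat, Real.norm_eq_abs, sq_abs] at h
  exact h

lemma inner_eq (f g : L2 Ω) : inner ℝ f g = ∑' ω, f ω * g ω := by
  rw [lp.inner_eq_tsum]
  refine tsum_congr fun ω => ?_
  simp [mul_comm]

/-- The isometry induced by a permutation. -/
def permIso (e : Equiv.Perm Ω) : L2 Ω →ₗᵢ[ℝ] L2 Ω where
  toFun f := ⟨fun ω => f (e.symm ω), memlp_perm e f⟩
  map_add' f g := by ext ω; rfl
  map_smul' c f := by ext ω; rfl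
  norm_map' f := by
    have h : ‖(⟨fun ω => f (e.symm ω), memlp_perm e f⟩ : L2 Ω)‖ ^ 2 = ‖f‖ ^ 2 := by
      rw [norm_sq_eq, norm_sq_eq]
      exact Equiv.tsum_eq e.symm (fun ω => f ω ^ 2)
    have h1 := (pow_left_inj₀ (norm_nonneg _) (norm_nonneg f) (two_ne_zero)).mp h
    exact h1

@[simp] lemma permIso_apply (e : Equiv.Perm Ω) (f : L2 Ω) (ω : Ω) :
    permIso e f ω = f (e.symm ω) := rfl

lemma permIso_mul (e e' : Equiv.Perm Ω) (f : L2 Ω) :
    permIso (e * e') f = permIso e (permIso e' f) := by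
  ext ω
  rfl

lemma permIso_one (f : L2 Ω) : permIso (1 : Equiv.Perm Ω) f = f := by
  ext ω
  rfl

lemma memlp_of_finite (f : Ω → ℝ) (hf : (Function.support f).Finite) (p : ENNReal)
    (hp : 0 < p.toReal) :
    Memℓp f p := by
  rw [memℓp_gen_iff hp]
  apply summable_of_finite_support
  refine hf.subset ?_
  intro ω hω
  simp only [Function.mem_support] at hω ⊢
  intro h
  apply hω
  rw [h, norm_zero, Real.zero_rpow hp.ne']

theorem exists_almost_invariant {ι : Type*} [Fintype ι] (s : ι → Equiv.Perm Ω) (m : Set Ω → ℝ)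
    (m_nonneg : ∀ A, 0 ≤ m A) (m_univ : m Set.univ = 1)
    (m_add : ∀ A B, Disjoint A B → m (A ∪ B) = m A + m B)
    (m_inv : ∀ i A, m (s i ⁻¹' A) = m A) (ε : ℝ) (hε : 0 < ε) :
    ∃ ξ : L2 Ω, ‖ξ‖ = 1 ∧ (∀ ω, 0 ≤ ξ ω) ∧ (Function.support (ξ : Ω → ℝ)).Finite ∧
      ∀ i, ‖permIso (s i) ξ - ξ‖ ≤ ε := by
  let E := ι → lp (fun _ : Ω => ℝ) 1
  let dl : Ω → lp (fun _ : Ω => ℝ) 1 := fun ω => lp.single 1 ω (1 : ℝ)
  have norm_dl : ∀ ω, ‖dl ω‖ = 1 := by
    intro ω
    simp only [dl]
    rw [lp.norm_single (by norm_num)]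
    simp
  let c : Ω → E := fun ω i => dl (s i ω) - dl ω
  let K : Set E := convexHull ℝ (Set.range c)
  have h0 : (0 : E) ∈ closure K := by
    by_contra hcon
    obtain ⟨f, u, hu0, hu⟩ := geometric_hahn_banach_point_closed
      (convex_convexHull ℝ (Set.range c)).closure isClosed_closure hcon
    rw [map_zero] at hu0
    have hdec : ∀ x : E, f x = ∑ i, f (Pi.single i (x i)) := by
      intro x
      rw [← map_sum]
      congr 1
      exact (Finset.univ_sum_single x).symm
    refine no_flow m m_nonneg m_univ m_add s m_inv (fun i ω => f (Pi.single i (dl ω))) ‖f‖ ?_ u hu0 ?_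
    · intro i ω
      have h1 := f.le_opNorm (Pi.single i (dl ω))
      rw [Pi.norm_single, norm_dl, mul_one] at h1
      exact h1
    · intro ω
      have h1 := hu (c ω) (subset_closure (subset_convexHull ℝ _ ⟨ω, rfl⟩))
      rw [hdec] at h1
      refine h1.le.trans (le_of_eq ?_)
      refine Finset.sum_congr rfl fun i _ => ?_
      simp only [c]
      rw [← map_sub]
      congr 1
      rw [Pi.single_sub]
  obtain ⟨z, hzK, hz⟩ := Metric.mem_closure_iff.mp h0 (ε ^ 2) (by positivity)
  rw [dist_eq_norm, zero_sub, norm_neg] at hz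
  obtain ⟨κ, _, w, y, hw0, hw1, hy, hsum⟩ := mem_convexHull_iff_exists_fintype.mp hzK
  choose o ho using hy
  let M : lp (fun _ : Ω => ℝ) 1 := ∑ k, w k • dl (o k)
  have hMval : ∀ ω, M ω = ∑ k, if o k = ω then w k else 0 := by
    intro ω
    simp only [M, dl]
    rw [lp.coeFn_sum]
    simp only [Finset.sum_apply, lp.coeFn_smul, Pi.smul_apply, smul_eq_mul]
    refine Finset.sum_congr rfl fun k _ => ?_
    by_cases h : o k = ω
    · subst h
      simp
    · rw [if_neg h, lp.single_apply_ne _ _ _ (Ne.symm h)]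
      simp
  have hM0 : ∀ ω, 0 ≤ M ω := by
    intro ω
    rw [hMval]
    refine Finset.sum_nonneg fun k _ => ?_
    split_ifs
    · exact hw0 k
    · exact le_rfl
  have hMfin : (Function.support (M : Ω → ℝ)).Finite := by
    refine (Set.finite_range o).subset ?_
    intro ω hω
    simp only [Function.mem_support] at hω
    rw [hMval] at hω
    obtain ⟨k, -, hk⟩ := Finset.exists_ne_zero_of_sum_ne_zero hω
    refine ⟨k, ?_⟩
    by_contra hne
    rw [if_neg hne] at hk
    exact hk rfl
  have hMsum : ∑' ω, M ω = 1 := by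
    have h1 : ∀ k, HasSum (fun ω => if o k = ω then w k else 0) (w k) := by
      intro k
      have := hasSum_ite_eq (o k) (w k)
      convert this using 2
      simp [eq_comm]
    have h2 : HasSum (fun ω => ∑ k, if o k = ω then w k else 0) (∑ k, w k) :=
      hasSum_sum fun k _ => h1 k
    rw [hw1] at h2
    rw [← h2.tsum_eq]
    exact tsum_congr hMval
  have hzi : ∀ i ω, z i ω = M ((s i).symm ω) - M ω := by
    intro i ω
    have h1 : z i = ∑ k, w k • (dl (s i (o k)) - dl (o k)) := by
      rw [← hsum]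
      rw [Finset.sum_apply]
      refine Finset.sum_congr rfl fun k _ => ?_
      rw [← ho k]
      rfl
    rw [h1, lp.coeFn_sum, Finset.sum_apply, hMval, hMval, ← Finset.sum_sub_distrib]
    refine Finset.sum_congr rfl fun k _ => ?_
    have hd : ∀ a : Ω, (dl a) ω = if a = ω then 1 else 0 := by
      intro a
      simp only [dl]
      by_cases h : a = ω
      · subst h; simp
      · rw [if_neg h, lp.single_apply_ne _ _ _ (Ne.symm h)]
    simp only [lp.coeFn_smul, lp.coeFn_sub, Pi.smul_apply, Pi.sub_apply, smul_eq_mul, hd]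
    have h3 : (s i (o k) = ω) ↔ (o k = (s i).symm ω) := by
      rw [Equiv.eq_symm_apply]
    simp only [h3]
    split_ifs <;> simp
  have hznorm : ∀ i, ∑' ω, |M ((s i).symm ω) - M ω| < ε ^ 2 := by
    intro i
    have h1 : ‖z i‖ ≤ ‖z‖ := norm_le_pi_norm z i
    have h2 : ‖z i‖ = ∑' ω, |M ((s i).symm ω) - M ω| := by
      have h3 := lp.norm_rpow_eq_tsum (p := 1) (by norm_num) (z i)
      simp only [ENNReal.toReal_one, Real.rpow_one, Real.norm_eq_abs] at h3
      rw [h3]
      exact tsum_congr fun ω => by rw [hzi]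
    linarith
  -- the vector
  have hsupp : (Function.support (fun ω => Real.sqrt (M ω))).Finite := by
    refine hMfin.subset ?_
    intro ω hω
    simp only [Function.mem_support] at hω ⊢
    intro h
    rw [h, Real.sqrt_zero] at hω
    exact hω rfl
  let ξ : L2 Ω := ⟨fun ω => Real.sqrt (M ω), memlp_of_finite _ hsupp 2 (by norm_num)⟩
  have hξ : ∀ ω, ξ ω = Real.sqrt (M ω) := fun ω => rfl
  refine ⟨ξ, ?_, ?_, hsupp, ?_⟩
  · have h1 : ‖ξ‖ ^ 2 = 1 := by
      rw [norm_sq_eq, ← hMsum]
      refine tsum_congr fun ω => ?_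
      rw [hξ, Real.sq_sqrt (hM0 ω)]
    have h2 : ‖ξ‖ ^ 2 = 1 ^ 2 := by rw [h1]; norm_num
    exact (pow_left_inj₀ (norm_nonneg _) zero_le_one two_ne_zero).mp h2
  · intro ω
    exact Real.sqrt_nonneg _
  · intro i
    have h1 : ‖permIso (s i) ξ - ξ‖ ^ 2 ≤ ε ^ 2 := by
      rw [norm_sq_eq]
      refine le_trans ?_ (hznorm i).le
      have hs2 : Summable fun ω => |M ((s i).symm ω) - M ω| := by
        apply summable_of_finite_support
        have hfin2 : (Function.support fun ω => M ((s i).symm ω)).Finite := by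
          have : (Function.support fun ω => M ((s i).symm ω))
              = (s i) '' (Function.support (M : Ω → ℝ)) := by
            ext ω
            simp only [Function.mem_support, Set.mem_image]
            constructor
            · intro h
              exact ⟨(s i).symm ω, h, by simp⟩
            · rintro ⟨ω', h1, rfl⟩
              simpa using h1
          rw [this]
          exact hMfin.image _
        refine (hfin2.union hMfin).subset ?_
        intro ω hω
        simp only [Function.mem_support, Set.mem_union] at hω ⊢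
        by_contra hcon
        push Not at hcon
        apply hω
        rw [hcon.1, hcon.2]
        simp
      have hpt : ∀ ω, (permIso (s i) ξ - ξ) ω ^ 2 ≤ |M ((s i).symm ω) - M ω| := by
        intro ω
        have hval : (permIso (s i) ξ - ξ) ω = Real.sqrt (M ((s i).symm ω)) - Real.sqrt (M ω) := by
          rw [lp.coeFn_sub, Pi.sub_apply, permIso_apply, hξ, hξ]
        rw [hval]
        set p := Real.sqrt (M ((s i).symm ω)) with hp
        set q := Real.sqrt (M ω) with hq
        have hp0 : 0 ≤ p := Real.sqrt_nonneg _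
        have hq0 : 0 ≤ q := Real.sqrt_nonneg _
        have hp2 : M ((s i).symm ω) = p ^ 2 := (Real.sq_sqrt (hM0 _)).symm
        have hq2 : M ω = q ^ 2 := (Real.sq_sqrt (hM0 _)).symm
        rw [hp2, hq2]
        have h3 : |p ^ 2 - q ^ 2| = |p - q| * (p + q) := by
          rw [show p ^ 2 - q ^ 2 = (p - q) * (p + q) by ring, abs_mul, abs_of_nonneg (add_nonneg hp0 hq0)]
        rw [h3]
        have h4 : |p - q| ≤ p + q := by
          rw [abs_le]; constructor <;> linarith
        calc (p - q) ^ 2 = |p - q| * |p - q| := by rw [← sq, sq_abs]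
          _ ≤ |p - q| * (p + q) := mul_le_mul_of_nonneg_left h4 (abs_nonneg _)
      have hs1 : Summable fun ω => (permIso (s i) ξ - ξ) ω ^ 2 :=
        Summable.of_nonneg_of_le (fun ω => sq_nonneg _) hpt hs2
      exact hs1.tsum_le_tsum hpt hs2
    exact (pow_le_pow_iff_left₀ (norm_nonneg _) hε.le two_ne_zero).mp h1

end L2

end

end Pool.Agent.Helper74ExtAm
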