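import Pool.Agent.Helper74_ExtAm.Chain
import Pool.Agent.Helper74_ExtAm.Mean

set_option autoImplicit false
set_option linter.unusedSectionVars false

/-!
The contradiction: no mean on finite subsets is invariant under the generators and one toggle.
-/

open Finset
open scoped Classical

namespace Pool.Agent.Helper74ExtAm

noncomputable section

/-! ### generators -/

/-- shears `(x, y) ↦ (x + L y, y)` in every block -/
def sh (L : ∀ k, WW k →ₗ[ZMod 2] WW k) : Equiv.Perm XX :=
  Equiv.sigmaCongrRight fun k =>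
    Function.Involutive.toPerm (fun v : VV k => (v.1 + L k v.2, v.2)) (by
      intro v
      simp only [add_assoc, two_torsion, add_zero])

@[simp] lemma sh_apply (L : ∀ k, WW k →ₗ[ZMod 2] WW k) (k : ℕ) (v : VV k) :
    sh L ⟨k, v⟩ = ⟨k, (v.1 + L k v.2, v.2)⟩ := rfl

/-- the shear `(x, y) ↦ (x, x + y)` in every block -/
def gb : Equiv.Perm XX :=
  Equiv.sigmaCongrRight fun k =>
    Function.Involutive.toPerm (fun v : VV k => (v.1, v.1 + v.2)) (by
      intro v
      simp only [← add_assoc, two_torsion, zero_add])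

@[simp] lemma gb_apply (k : ℕ) (v : VV k) : gb ⟨k, v⟩ = ⟨k, (v.1, v.1 + v.2)⟩ := rfl

def gm : Equiv.Perm XX := tr fun k => (w0 k, 0)

def ga : Equiv.Perm XX := sh fun _ => LinearMap.id

def gc (c : Fin 3 → ZMod 2) : Equiv.Perm XX := sh fun k => Tc (TT k) c

/-- index type of the generators -/
abbrev Gen : Type := Fin 4 ⊕ (Fin 3 → ZMod 2)

/-- the generators -/
def gen : Gen → Equiv.Perm XX
  | Sum.inl 0 => gm
  | Sum.inl 1 => ga
  | Sum.inl 2 => gb
  | Sum.inl 3 => tau
  | Sum.inr c => gc c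

/-! ### action on finite sets -/

/-- induced permutation of the finite subsets -/
def fc (g : Equiv.Perm XX) : Equiv.Perm (Finset XX) := Equiv.finsetCongr g

lemma fc_apply (g : Equiv.Perm XX) (A : Finset XX) : fc g A = A.map g.toEmbedding := rfl

lemma mem_fc (g : Equiv.Perm XX) (A : Finset XX) (x : XX) : x ∈ fc g A ↔ g.symm x ∈ A := by
  rw [fc_apply, Finset.mem_map_equiv]

lemma fc_mul (g h : Equiv.Perm XX) : fc (g * h) = fc g * fc h := by
  ext A x
  rw [mem_fc, Equiv.Perm.mul_apply, mem_fc, mem_fc]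
  rfl

lemma fc_one : fc 1 = 1 := by
  ext A x
  rw [mem_fc]
  rfl

lemma fc_symm (g : Equiv.Perm XX) : (fc g).symm = fc g.symm := by
  ext A x
  rw [mem_fc]
  simp only [fc, Equiv.finsetCongr_symm, Equiv.finsetCongr_apply, Finset.mem_map_equiv]

lemma sum_fc (g : Equiv.Perm XX) (A : Finset XX) (f : XX → ℝ) :
    ∑ x ∈ fc g A, f x = ∑ x ∈ A, f (g x) := by
  rw [fc_apply, Finset.sum_map]
  rfl

/-- toggling a point -/
def tog (x₀ : XX) : Equiv.Perm (Finset XX) :=
  Function.Involutive.toPerm (fun A => symmDiff A {x₀}) (by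
    intro A
    exact symmDiff_symmDiff_cancel_right _ _)

lemma tog_apply (x₀ : XX) (A : Finset XX) : tog x₀ A = symmDiff A {x₀} := rfl

lemma tog_symm (x₀ : XX) : (tog x₀).symm = tog x₀ := rfl

lemma mem_tog (x₀ : XX) (A : Finset XX) : x₀ ∈ tog x₀ A ↔ x₀ ∉ A := by
  rw [tog_apply, Finset.mem_symmDiff]
  simp

/-- sets supported in the first blocks -/
def SK (K : ℕ) (A : Finset XX) : Prop := ∀ x ∈ A, x.1 ≤ K

lemma SK_finite (K : ℕ) : {A : Finset XX | SK K A}.Finite := by
  have : {A : Finset XX | SK K A} ⊆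
      ↑(((range (K + 1)).sigma fun k => (univ : Finset (VV k))).powerset) := by
    intro A hA
    simp only [Finset.coe_powerset, Set.mem_preimage, Set.mem_powerset_iff]
    intro x hx
    have := hA x hx
    simp only [Finset.coe_sigma, Set.mem_sigma_iff]
    exact ⟨by simpa using Nat.lt_succ_of_le this, by simp⟩
  exact (Finset.finite_toSet _).subset this

lemma SK_fc (K : ℕ) (g : Equiv.Perm XX) (hg : ∀ x, (g x).1 = x.1) (A : Finset XX) :
    SK K (fc g A) ↔ SK K A := by
  constructor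
  · intro h x hx
    have := h (g x) (by rw [mem_fc]; simpa using hx)
    rwa [hg] at this
  · intro h x hx
    rw [mem_fc] at hx
    have h1 := h _ hx
    have h2 := hg (g.symm x)
    rw [Equiv.apply_symm_apply] at h2
    rwa [h2]

lemma tr_fst (v : ∀ k, VV k) (x : XX) : (tr v x).1 = x.1 := by
  obtain ⟨k, x⟩ := x; rfl

lemma tr_symm_fst (v : ∀ k, VV k) (x : XX) : ((tr v).symm x).1 = x.1 := by
  have := tr_fst v ((tr v).symm x)
  rw [Equiv.apply_symm_apply] at this
  exact this.symm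

/-! ### translations -/

lemma extv_zero (K : ℕ) : extv K 0 = 0 := by
  funext k
  unfold extv
  split_ifs <;> rfl

lemma extv_add (K : ℕ) (v v' : WK K × WK K) : extv K (v + v') = extv K v + extv K v' := by
  funext k
  simp only [extv, Pi.add_apply]
  split_ifs
  · rfl
  · simp

lemma tr_zero : tr 0 = 1 := by
  ext ⟨k, x⟩ : 1
  rw [tr_apply, Pi.zero_apply, add_zero]
  rfl

lemma tr_add (v v' : ∀ k, VV k) : tr (v + v') = tr v * tr v' := by
  ext ⟨k, x⟩ : 1
  rw [Equiv.Perm.mul_apply, tr_apply, tr_apply, tr_apply, Pi.add_apply, add_assoc,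
    add_comm (v k)]

lemma sh_tr (L : ∀ k, WW k →ₗ[ZMod 2] WW k) (K : ℕ) (LK : WK K →ₗ[ZMod 2] WK K)
    (hL : ∀ (f : WK K) (k : Fin (K + 1)), LK f k = L k (f k)) (v : WK K × WK K) :
    sh L * tr (extv K v) = tr (extv K (v.1 + LK v.2, v.2)) * sh L := by
  ext ⟨k, x⟩ : 1
  rw [Equiv.Perm.mul_apply, Equiv.Perm.mul_apply, tr_apply, sh_apply, sh_apply, tr_apply]
  congr 1
  unfold extv
  by_cases h : k < K + 1
  · rw [dif_pos h, dif_pos h]
    simp only [Prod.mk_add_mk, Prod.fst_add, Prod.snd_add, map_add, Pi.add_apply]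
    rw [hL]
    congr 1
    abel
  · rw [dif_neg h, dif_neg h]
    simp

lemma gb_tr (K : ℕ) (v : WK K × WK K) :
    gb * tr (extv K v) = tr (extv K (v.1, v.1 + v.2)) * gb := by
  ext ⟨k, x⟩ : 1
  rw [Equiv.Perm.mul_apply, Equiv.Perm.mul_apply, tr_apply, gb_apply, gb_apply, tr_apply]
  congr 1
  unfold extv
  by_cases h : k < K + 1
  · rw [dif_pos h, dif_pos h]
    simp only [Prod.mk_add_mk, Prod.fst_add, Prod.snd_add, Pi.add_apply]
    congr 1
    abel
  · rw [dif_neg h, dif_neg h]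
    simp

/-- the representation of the finite translation group -/
def tt (K : ℕ) (v : WK K × WK K) : L2 (Finset XX) →ₗᵢ[ℝ] L2 (Finset XX) :=
  permIso (fc (tr (extv K v)))

lemma tt_zero (K : ℕ) (x : L2 (Finset XX)) : tt K 0 x = x := by
  unfold tt
  rw [extv_zero, tr_zero, fc_one, permIso_one]

lemma tt_add (K : ℕ) (v v' : WK K × WK K) (x : L2 (Finset XX)) :
    tt K (v + v') x = tt K v (tt K v' x) := by
  unfold tt
  rw [extv_add, tr_add, fc_mul, permIso_mul]

lemma tt_intertwine (K : ℕ) (g : Equiv.Perm XX) (v v' : WK K × WK K)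
    (h : g * tr (extv K v) = tr (extv K v') * g) (x : L2 (Finset XX)) :
    permIso (fc g) (tt K v x) = tt K v' (permIso (fc g) x) := by
  unfold tt
  rw [← permIso_mul, ← permIso_mul, ← fc_mul, ← fc_mul, h]

lemma gm_eq (K : ℕ) (ξ : L2 (Finset XX)) (hξ : ∀ A, ¬ SK K A → ξ A = 0) :
    permIso (fc gm) ξ = tt K (wK K, 0) ξ := by
  ext A
  unfold tt
  rw [permIso_apply, permIso_apply, fc_symm, fc_symm]
  by_cases hA : SK K A
  · have hinj : fc gm (fc gm.symm A) = fc gm (fc (tr (extv K (wK K, 0))).symm A) := by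
      have e1 : fc gm (fc gm.symm A) = A := by
        rw [← fc_symm, Equiv.apply_symm_apply]
      have e2 : fc gm (fc (tr (extv K (wK K, 0))).symm A) = A := by
        ext x
        rw [mem_fc, mem_fc, Equiv.symm_symm]
        have hiff : x.1 ≤ K → (tr (extv K (wK K, 0))) (gm.symm x) = x := by
          intro hx
          obtain ⟨k, x⟩ := x
          have h1 : gm.symm ⟨k, x⟩ = ⟨k, x - (w0 k, 0)⟩ := by
            rw [Equiv.symm_apply_eq, gm, tr_apply, sub_add_cancel]
          rw [h1, tr_apply]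
          have h2 : extv K (wK K, 0) k = (w0 k, 0) := by
            unfold extv
            rw [dif_pos (Nat.lt_succ_of_le hx)]
            rfl
          rw [h2, sub_add_cancel]
        have hfst : ((tr (extv K (wK K, 0))) (gm.symm x)).1 = x.1 := by
          rw [tr_fst]
          exact tr_symm_fst _ x
        constructor
        · intro h
          have h1 := hA _ h
          rw [hfst] at h1
          rwa [hiff h1] at h
        · intro h
          rwa [hiff (hA x h)]
      rw [e1, e2]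
    exact congrArg (fun B => ξ B) ((fc gm).injective hinj)
  · have hg : ∀ x, (gm.symm x).1 = x.1 := tr_symm_fst _
    have e1 : ξ ((fc gm.symm) A) = 0 := hξ _ (by rw [SK_fc K _ hg]; exact hA)
    have e2 : ξ ((fc (tr (extv K (wK K, 0))).symm) A) = 0 :=
      hξ _ (by rw [SK_fc K _ (tr_symm_fst _)]; exact hA)
    rw [e1, e2]

/-! ### cutting at the base point -/

lemma summable_sq {Ω : Type*} (f : L2 Ω) : Summable fun A => f A ^ 2 := by
  have h := lp.memℓp f
  rw [memℓp_gen_iff (by norm_num)] at h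
  simpa using h

lemma memlp_cut (x₀ : XX) (f : L2 (Finset XX)) :
    Memℓp (fun A : Finset XX => if x₀ ∈ A then f A else 0) 2 := by
  have h := lp.memℓp f
  rw [memℓp_gen_iff (by norm_num)] at h ⊢
  refine Summable.of_nonneg_of_le (fun A => by positivity) (fun A => ?_) h
  split_ifs
  · exact le_rfl
  · simp [sq_nonneg]

/-- restriction to the sets containing `x₀` -/
def cut (x₀ : XX) (f : L2 (Finset XX)) : L2 (Finset XX) :=
  ⟨fun A => if x₀ ∈ A then f A else 0, memlp_cut x₀ f⟩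

lemma cut_apply (x₀ : XX) (f : L2 (Finset XX)) (A : Finset XX) :
    cut x₀ f A = if x₀ ∈ A then f A else 0 := rfl

lemma norm_cut_le (x₀ : XX) (f : L2 (Finset XX)) : ‖cut x₀ f‖ ≤ ‖f‖ := by
  have h : ‖cut x₀ f‖ ^ 2 ≤ ‖f‖ ^ 2 := by
    rw [norm_sq_eq, norm_sq_eq]
    refine (summable_sq _).tsum_le_tsum (fun A => ?_) (summable_sq _)
    rw [cut_apply]
    split_ifs
    · exact le_rfl
    · nlinarith [sq_nonneg (f A)]
  exact (pow_le_pow_iff_left₀ (norm_nonneg _) (norm_nonneg _) two_ne_zero).mp h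

lemma cut_sub (x₀ : XX) (f g : L2 (Finset XX)) : cut x₀ (f - g) = cut x₀ f - cut x₀ g := by
  ext A
  rw [lp.coeFn_sub, Pi.sub_apply, cut_apply, cut_apply, cut_apply, lp.coeFn_sub, Pi.sub_apply]
  split_ifs <;> simp

lemma norm_cut_close (x₀ : XX) (f g : L2 (Finset XX)) : ‖cut x₀ f‖ ≤ ‖cut x₀ g‖ + ‖f - g‖ := by
  have h1 : ‖cut x₀ f‖ ≤ ‖cut x₀ g‖ + ‖cut x₀ f - cut x₀ g‖ := by
    have := norm_add_le (cut x₀ g) (cut x₀ f - cut x₀ g)
    simpa using this
  rw [← cut_sub] at h1
  exact h1.trans (add_le_add_right (norm_cut_le x₀ _) _)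

lemma norm_cut_tog (x₀ : XX) (f : L2 (Finset XX)) :
    ‖f‖ ^ 2 = ‖cut x₀ f‖ ^ 2 + ‖cut x₀ (permIso (tog x₀) f)‖ ^ 2 := by
  rw [norm_sq_eq, norm_sq_eq, norm_sq_eq]
  have h1 : ∑' A, (cut x₀ (permIso (tog x₀) f)) A ^ 2 = ∑' A, (if x₀ ∉ A then f A ^ 2 else 0) := by
    rw [← Equiv.tsum_eq (tog x₀) (fun A => if x₀ ∉ A then f A ^ 2 else 0)]
    refine tsum_congr fun A => ?_
    rw [cut_apply, permIso_apply, tog_symm]
    by_cases hA : x₀ ∈ A
    · have h2 : x₀ ∉ tog x₀ A := by rw [mem_tog]; exact not_not.mpr hA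
      rw [if_pos hA, if_pos h2]
    · have h2 : ¬ (x₀ ∉ tog x₀ A) := by rw [mem_tog]; exact not_not.mpr hA
      rw [if_neg hA, if_neg h2]; norm_num
  rw [h1, ← Summable.tsum_add]
  · refine tsum_congr fun A => ?_
    rw [cut_apply]
    split_ifs <;> simp_all
  · exact summable_sq _
  · refine Summable.of_nonneg_of_le (fun A => ?_) (fun A => ?_) (summable_sq f)
    · by_cases hA : x₀ ∉ A
      · rw [if_pos hA]; exact sq_nonneg _
      · rw [if_neg hA]
    · by_cases hA : x₀ ∉ A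
      · rw [if_pos hA]
      · rw [if_neg hA]; exact sq_nonneg _

/-! ### the weight -/

/-- the multiplicative weight -/
def GG (l : ℝ) (A : Finset XX) : ℝ := Real.exp (-l * ∑ x ∈ A, dlt x)

lemma GG_pos (l : ℝ) (A : Finset XX) : 0 < GG l A := Real.exp_pos _

lemma GG_tau (l : ℝ) (A : Finset XX) : GG l A * GG l (fc tau A) = 1 := by
  unfold GG
  rw [sum_fc, ← Real.exp_add]
  have : ∑ x ∈ A, dlt (tau x) = - ∑ x ∈ A, dlt x := by
    rw [← Finset.sum_neg_distrib]
    refine Finset.sum_congr rfl fun x _ => ?_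
    unfold dlt
    rw [tau_invol]; ring
  rw [this]
  have h0 : -l * ∑ x ∈ A, dlt x + -l * -∑ x ∈ A, dlt x = 0 := by ring
  rw [h0, Real.exp_zero]

lemma fc_tau_symm : (fc tau).symm = fc tau := by
  rw [fc_symm]
  have : tau.symm = tau := by
    ext x : 1
    rw [Equiv.symm_apply_eq, tau_invol]
  rw [this]

lemma amgm (a b g g' : ℝ) (hg : 0 < g) (h : g * g' = 1) :
    b * a ≤ (1 / 2) * (a ^ 2 * g + b ^ 2 * g') := by
  have hg' : g' = 1 / g := by field_simp; linarith
  rw [hg']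
  have h1 : 0 ≤ (a * g - b) ^ 2 / g := by positivity
  have h2 : (a * g - b) ^ 2 / g = a ^ 2 * g - 2 * (b * a) + b ^ 2 * (1 / g) := by
    field_simp
    ring
  linarith

lemma summable_of_fin {f : Finset XX → ℝ} (K : ℕ) (h : ∀ A, ¬ SK K A → f A = 0) : Summable f := by
  apply summable_of_hasFiniteSupport
  refine (SK_finite K).subset ?_
  intro A hA
  by_contra hcon
  exact hA (h A hcon)

/-- Schur test for the coupling involution -/
lemma inner_tau_le (l : ℝ) (η : L2 (Finset XX)) (K : ℕ) (hη : ∀ A, ¬ SK K A → η A = 0) :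
    inner ℝ (permIso (fc tau) η) η ≤ ∑' A, η A ^ 2 * GG l A := by
  rw [inner_eq]
  have hs1 : Summable fun A => η A ^ 2 * GG l A :=
    summable_of_fin K fun A hA => by rw [hη A hA]; ring
  have hs2 : Summable fun A => η (fc tau A) ^ 2 * GG l (fc tau A) :=
    (Equiv.summable_iff (fc tau)).mpr hs1
  have hs3 : Summable fun A => (permIso (fc tau) η) A * η A :=
    summable_of_fin K fun A hA => by rw [hη A hA]; ring
  have h1 : ∀ A, (permIso (fc tau) η) A * η A ≤
      (1 / 2) * (η A ^ 2 * GG l A + η (fc tau A) ^ 2 * GG l (fc tau A)) := by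
    intro A
    rw [permIso_apply, fc_tau_symm]
    exact amgm _ _ _ _ (GG_pos l A) (GG_tau l A)
  refine (hs3.tsum_le_tsum h1 ((hs1.add hs2).mul_left _)).trans (le_of_eq ?_)
  rw [tsum_mul_left, Summable.tsum_add hs1 hs2, Equiv.tsum_eq (fc tau) (fun A => η A ^ 2 * GG l A)]
  ring

/-- averaging over independent translations of the blocks -/
lemma weighted_le (l : ℝ) (hl0 : 0 ≤ l) (hl1 : l ≤ 1) (η : L2 (Finset XX)) (K : ℕ)
    (hη : ∀ A, ¬ SK K A → η A = 0) (hinv : ∀ v, tt K v η = η) (x₀ : XX) (hx₀ : x₀.1 = 0) :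
    ∑' A, η A ^ 2 * GG l A ≤ Real.exp (2 * l ^ 2) *
      (‖η‖ ^ 2 - (1 - Real.exp (-l / Fintype.card (VV 0))) * ‖cut x₀ η‖ ^ 2) := by
  have hN : (0 : ℝ) < Fintype.card (WK K × WK K) := by
    exact_mod_cast Fintype.card_pos
  -- invariance
  have h1 : ∀ v : WK K × WK K, ∑' A, η A ^ 2 * GG l A
      = ∑' A, η A ^ 2 * GG l (fc (tr (extv K v)) A) := by
    intro v
    rw [← Equiv.tsum_eq (fc (tr (extv K v))) (fun A => η A ^ 2 * GG l A)]
    refine tsum_congr fun A => ?_
    have h2 : η (fc (tr (extv K v)) A) = η A := by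
      have h3 := congrArg (fun f : L2 (Finset XX) => f (fc (tr (extv K v)) A)) (hinv v)
      simp only [tt, permIso_apply, Equiv.symm_apply_apply] at h3
      exact h3.symm
    rw [h2]
  have h2 : (Fintype.card (WK K × WK K) : ℝ) * ∑' A, η A ^ 2 * GG l A
      = ∑' A, η A ^ 2 * ∑ v : WK K × WK K, GG l (fc (tr (extv K v)) A) := by
    have h3 : ∀ A, η A ^ 2 * ∑ v : WK K × WK K, GG l (fc (tr (extv K v)) A)
        = ∑ v : WK K × WK K, η A ^ 2 * GG l (fc (tr (extv K v)) A) := fun A => Finset.mul_sum _ _ _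
    simp_rw [h3]
    rw [Summable.tsum_finsetSum]
    · rw [Finset.sum_congr rfl fun v _ => (h1 v).symm, Finset.sum_const, Finset.card_univ,
        nsmul_eq_mul]
    · intro v _
      exact summable_of_fin K fun A hA => by rw [hη A hA]; ring
  have h3 : ∀ A, η A ^ 2 * ∑ v : WK K × WK K, GG l (fc (tr (extv K v)) A)
      ≤ Fintype.card (WK K × WK K) * (Real.exp (2 * l ^ 2) *
        (η A ^ 2 - (1 - Real.exp (-l / Fintype.card (VV 0))) * (cut x₀ η) A ^ 2)) := by
    intro A
    by_cases hA : SK K A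
    · have h4 := expect K A hA l hl0 hl1
      have h5 : ∑ v : WK K × WK K, GG l (fc (tr (extv K v)) A)
          = ∑ v : WK K × WK K, Real.exp (-l * ∑ x ∈ A, dlt (tr (extv K v) x)) := by
        refine Finset.sum_congr rfl fun v _ => ?_
        unfold GG
        rw [sum_fc]
      rw [h5]
      have h6 : Real.exp (-l * ((sl A 0).card / (Fintype.card (VV 0) : ℝ)) + 2 * l ^ 2)
          ≤ Real.exp (2 * l ^ 2) *
            (1 - (1 - Real.exp (-l / Fintype.card (VV 0))) * (if x₀ ∈ A then 1 else 0)) := by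
        rw [Real.exp_add, mul_comm]
        apply mul_le_mul_of_nonneg_left _ (Real.exp_pos _).le
        have hV := card_VV_pos 0
        split_ifs with hx
        · have h7 : (1 : ℝ) ≤ (sl A 0).card := by
            have : 0 < (sl A 0).card := by
              rw [Finset.card_pos]
              obtain ⟨k, x⟩ := x₀
              simp only at hx₀
              subst hx₀
              exact ⟨x, by simp only [sl, Finset.mem_filter, Finset.mem_univ, true_and]; exact hx⟩
            exact_mod_cast this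
          have h8 : -l * ((sl A 0).card / (Fintype.card (VV 0) : ℝ))
              ≤ -l / Fintype.card (VV 0) := by
            rw [mul_div_assoc', div_le_div_iff_of_pos_right hV]
            nlinarith
          have := Real.exp_le_exp.mpr h8
          linarith
        · rw [mul_zero, sub_zero]
          apply Real.exp_le_one_iff.mpr
          have : 0 ≤ l * ((sl A 0).card / (Fintype.card (VV 0) : ℝ)) :=
            mul_nonneg hl0 (div_nonneg (Nat.cast_nonneg _) hV.le)
          linarith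
      have h7 := mul_le_mul_of_nonneg_left h6 hN.le
      have h8 := h4.trans h7
      have h9 := mul_le_mul_of_nonneg_left h8 (sq_nonneg (η A))
      refine h9.trans (le_of_eq ?_)
      rw [cut_apply]
      split_ifs <;> ring
    · rw [hη A hA, cut_apply, hη A hA]
      simp
  have hs4 : Summable fun A => η A ^ 2 * ∑ v : WK K × WK K, GG l (fc (tr (extv K v)) A) :=
    summable_of_fin K fun A hA => by rw [hη A hA]; ring
  have hs5 : Summable fun A => (1 - Real.exp (-l / Fintype.card (VV 0))) * (cut x₀ η) A ^ 2 :=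
    (summable_sq _).mul_left _
  have h4 := hs4.tsum_le_tsum h3 ((((summable_sq η).sub hs5).mul_left _).mul_left _)
  rw [← h2, tsum_mul_left, tsum_mul_left, Summable.tsum_sub (summable_sq η) hs5, tsum_mul_left,
    ← norm_sq_eq, ← norm_sq_eq] at h4
  exact le_of_mul_le_mul_left h4 hN

/-! ### the contradiction -/

lemma numeric (N : ℝ) (hN : 1 ≤ N) :
    Real.exp (2 * (1 / (64 * N)) ^ 2) * (1 - (1 - Real.exp (-(1 / (64 * N)) / N)) / 8)
      ≤ 1 - 1 / (4096 * N ^ 2) := by
  have hN0 : 0 < N := by linarith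
  set l : ℝ := 1 / (64 * N) with hl
  have hl0 : 0 < l := by positivity
  have hlN : l * N = 1 / 64 := by rw [hl]; field_simp
  have hl1 : l ≤ 1 / 64 := by nlinarith
  set y : ℝ := l / N with hy
  have hy0 : 0 < y := by positivity
  have hyN : y * N = l := by rw [hy]; field_simp
  have hy1 : y ≤ 1 / 2 := by nlinarith
  have e1 : Real.exp (2 * l ^ 2) ≤ 1 + 3 * l ^ 2 := by
    have hl2 : l ^ 2 ≤ 1 / 4096 := by nlinarith
    have := exp_le_quad (2 * l ^ 2) (by rw [abs_of_nonneg (by positivity)]; linarith)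
    nlinarith [sq_nonneg l]
  have e2 : Real.exp (-l / N) ≤ 1 - y / 2 := by
    have h1 : -l / N = -y := by rw [hy]; ring
    rw [h1]
    have := exp_le_quad (-y) (by rw [abs_neg, abs_of_pos hy0]; linarith)
    nlinarith
  have e2' : 0 < Real.exp (-l / N) := Real.exp_pos _
  have h1 : 1 - (1 - Real.exp (-l / N)) / 8 ≤ 1 - y / 16 := by linarith
  have h2 : 0 ≤ 1 - y / 16 := by linarith
  have h3 : Real.exp (2 * l ^ 2) * (1 - (1 - Real.exp (-l / N)) / 8)
      ≤ (1 + 3 * l ^ 2) * (1 - y / 16) :=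
    mul_le_mul e1 h1 (by linarith) (by positivity)
  refine h3.trans ?_
  have h4 : (1 + 3 * l ^ 2) * (1 - y / 16) ≤ 1 + 3 * l ^ 2 - y / 16 := by
    have : 0 ≤ 3 * l ^ 2 * (y / 16) := by positivity
    nlinarith
  refine h4.trans (le_of_eq ?_)
  rw [hy, hl]
  field_simp
  ring

lemma numA {a b ε : ℝ} (ha0 : 0 ≤ a) (hb0 : 0 ≤ b) (hb : b ≤ a + ε) (hε : ε ≤ 1 / 4096000)
    (h : (1 : ℝ) ^ 2 = a ^ 2 + b ^ 2) : 1 / 2 ≤ a := by
  by_contra hcon
  push Not at hcon
  have h4 : b ≤ 1 / 2 + 1 / 4096000 := by linarith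
  nlinarith

lemma numB {θ ε : ℝ} (hε : ε ≤ 1 / 4096000) (hθ2 : θ ^ 2 ≤ 192 * ε) : θ ≤ 1 / 8 := by
  by_contra hcon
  push Not at hcon
  nlinarith

lemma numC {x y θ ε : ℝ} (hx0 : 0 ≤ x) (hε0 : 0 < ε) (hε : ε ≤ 1 / 4096000)
    (hθ2 : θ ^ 2 ≤ 192 * ε) (hx : x ≤ ε + 2 * θ) (hy : 1 - 192 * ε ≤ y) :
    1 - 961 * ε ≤ y - x ^ 2 / 2 := by
  have h2 : x ^ 2 ≤ (ε + 2 * θ) ^ 2 := pow_le_pow_left₀ hx0 hx 2
  have h3 : (ε + 2 * θ) ^ 2 ≤ 2 * ε ^ 2 + 8 * θ ^ 2 := by nlinarith [sq_nonneg (ε - 2 * θ)]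
  have h4 : ε ^ 2 ≤ ε := by nlinarith
  linarith

lemma numD {a b θ : ℝ} (ha : 1 / 2 ≤ a) (hab : a ≤ b + θ) (hθ : θ ≤ 1 / 8) : 1 / 8 ≤ b ^ 2 := by
  have h2 : 3 / 8 ≤ b := by linarith
  nlinarith

lemma card_C (inst : Fintype (Fin 3 → ZMod 2)) : @Fintype.card (Fin 3 → ZMod 2) inst = 8 := by
  rw [← Nat.card_eq_fintype_card, Nat.card_fun]
  simp

/-- **No invariant mean.** -/
theorem no_mean (m : Set (Finset XX) → ℝ) (m_nonneg : ∀ A, 0 ≤ m A) (m_univ : m Set.univ = 1)
    (m_add : ∀ A B, Disjoint A B → m (A ∪ B) = m A + m B)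
    (x₀ : XX) (hx₀ : x₀.1 = 0)
    (hgen : ∀ i A, m (fc (gen i) ⁻¹' A) = m A) (htog : ∀ A, m (tog x₀ ⁻¹' A) = m A) : False := by
  set N : ℝ := (Fintype.card (VV 0) : ℝ) with hN
  have hN1 : 1 ≤ N := by
    rw [hN]
    exact_mod_cast (Fintype.card_pos : 0 < Fintype.card (VV 0))
  have hN0 : 0 < N := by linarith
  set c0 : ℝ := 1 / (4096 * N ^ 2) with hc0
  have hc0pos : 0 < c0 := by positivity
  have hc0le : c0 ≤ 1 / 4096 := by
    rw [hc0]
    apply one_div_le_one_div_of_le (by norm_num)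
    nlinarith
  set ε : ℝ := c0 / 1000 with hε
  have hε0 : 0 < ε := by positivity
  have hε1 : ε ≤ 1 / 4096000 := by rw [hε]; linarith
  let s : Option Gen → Equiv.Perm (Finset XX) := fun i =>
    match i with
    | none => tog x₀
    | some g => fc (gen g)
  obtain ⟨ξ, hξ1, hξ0, hξfin, hξs⟩ := exists_almost_invariant s m m_nonneg m_univ m_add
    (by
      intro i A
      rcases i with _ | g
      · exact htog A
      · exact hgen g A) ε hε0
  -- the truncation level
  obtain ⟨K, hK⟩ : ∃ K : ℕ, ∀ A, ¬ SK K A → ξ A = 0 := by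
    let U : Finset XX := hξfin.toFinset.biUnion id
    refine ⟨U.sup fun x => x.1, fun A hA => ?_⟩
    by_contra hne
    apply hA
    intro x hx
    have hxU : x ∈ U := by
      simp only [U, Finset.mem_biUnion, Set.Finite.mem_toFinset, Function.mem_support, id]
      exact ⟨A, hne, hx⟩
    exact Finset.le_sup (f := fun x : XX => x.1) hxU
  -- relative property (T)
  have hrel := relT (C := Fin 3 → ZMod 2) (tt K) (tt_zero K) (tt_add K) (wK K) (Tc (TK K)) 0 (Tc_zero _)
    (vl (TK K) (wK K)) (vl_top (TK K) (wK K) (cyclic_TK K)) (vl_add (TK K) (wK K))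
    (vl_zero (TK K) (wK K))
    (by
      intro φ h1 h2
      have h := vl_half (TK K) (wK K) (cyclic_TK K) φ h1 h2
      rw [card_C] at h ⊢
      refine h.trans (le_of_eq ?_)
      congr 2
      ext c
      simp only [Finset.mem_filter, Finset.mem_univ])
    (permIso (fc ga)) (permIso (fc gb)) (fun c => permIso (fc (gc c)))
    (fun v x => tt_intertwine K ga v _ (sh_tr _ K LinearMap.id (fun _ _ => rfl) v) x)
    (fun v x => tt_intertwine K gb v _ (gb_tr K v) x)
    (fun c v x => tt_intertwine K (gc c) v _ (sh_tr _ K (Tc (TK K) c) (fun f k => by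
      rw [Tc_apply, Tc_apply, Finset.sum_apply]
      rfl) v) x)
    ξ hξ1.le ε hε0 (by linarith)
    (by rw [← gm_eq K ξ hK]; exact hξs (some (Sum.inl 0)))
    (hξs (some (Sum.inl 1))) (hξs (some (Sum.inl 2))) (fun c => hξs (some (Sum.inr c)))
  rw [card_C, hξ1] at hrel
  set η := P (tt K) 0 ξ with hη
  -- properties of η
  have hηinv : ∀ v, tt K v η = η := by
    intro v
    rw [hη, t_P (tt K) (tt_add K)]
    simp [ev, sgn]
  have hηK : ∀ A, ¬ SK K A → η A = 0 := by
    intro A hA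
    rw [hη, P_apply, lp.coeFn_smul, Pi.smul_apply, lp.coeFn_sum, Finset.sum_apply]
    rw [Finset.sum_eq_zero, smul_zero]
    intro v _
    rw [lp.coeFn_smul, Pi.smul_apply]
    unfold tt
    rw [permIso_apply, fc_symm, hK, smul_zero]
    rw [SK_fc K _ (tr_symm_fst _)]; exact hA
  have hinner : inner ℝ ξ η = ‖η‖ ^ 2 := by
    rw [hη, ← inner_P_P (tt K) (tt_zero K) (tt_add K), real_inner_self_eq_norm_sq]
  have hdist : ‖ξ - η‖ ^ 2 = 1 - ‖η‖ ^ 2 := by
    rw [norm_sub_sq_real, hinner, hξ1]; ring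
  have hηle : ‖η‖ ^ 2 ≤ 1 := by
    have := sq_nonneg ‖ξ - η‖
    linarith
  have hηge : 1 - 192 * ε ≤ ‖η‖ ^ 2 := by
    have h := hrel
    push_cast at h
    linarith
  set θ : ℝ := ‖ξ - η‖ with hθ
  have hθ0 : 0 ≤ θ := norm_nonneg _
  have hθ2 : θ ^ 2 ≤ 192 * ε := by rw [hdist]; linarith
  have hθ8 : θ ≤ 1 / 8 := numB hε1 hθ2
  -- the coupling step
  have htau : ‖permIso (fc tau) ξ - ξ‖ ≤ ε := hξs (some (Sum.inl 3))
  have htauη : ‖permIso (fc tau) η - η‖ ≤ ε + 2 * θ := by
    have h1 : permIso (fc tau) η - η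
        = (permIso (fc tau) ξ - ξ) + (ξ - η) - permIso (fc tau) (ξ - η) := by
      rw [map_sub]; abel
    rw [h1]
    refine (norm_sub_le _ _).trans ?_
    rw [LinearIsometry.norm_map]
    have := norm_add_le (permIso (fc tau) ξ - ξ) (ξ - η)
    linarith
  have hlow : 1 - 961 * ε ≤ inner ℝ (permIso (fc tau) η) η := by
    have h1 := norm_sub_sq_real (permIso (fc tau) η) η
    rw [LinearIsometry.norm_map] at h1
    have h2 := numC (norm_nonneg (permIso (fc tau) η - η)) hε0 hε1 hθ2 htauη hηge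
    rw [h1] at h2
    linarith
  -- mass at the base point
  have hcutξ : 1 / 2 ≤ ‖cut x₀ ξ‖ := by
    have h1 := norm_cut_tog x₀ ξ
    have h2 := norm_cut_close x₀ (permIso (tog x₀) ξ) ξ
    have h3 : ‖permIso (tog x₀) ξ - ξ‖ ≤ ε := hξs none
    rw [hξ1] at h1
    exact numA (norm_nonneg _) (norm_nonneg _) (h2.trans (add_le_add_right h3 _)) hε1 h1
  have hcutη : 1 / 8 ≤ ‖cut x₀ η‖ ^ 2 := numD hcutξ (norm_cut_close x₀ ξ η) hθ8
  -- upper bound
  have hl1 : (1 : ℝ) / (64 * N) ≤ 1 := by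
    rw [div_le_one (by positivity)]; linarith
  have hup := (inner_tau_le (1 / (64 * N)) η K hηK).trans
    (weighted_le (1 / (64 * N)) (by positivity) hl1 η K hηK hηinv x₀ hx₀)
  have hnum := numeric N hN1
  have hlast : Real.exp (2 * (1 / (64 * N)) ^ 2) *
      (‖η‖ ^ 2 - (1 - Real.exp (-(1 / (64 * N)) / N)) * ‖cut x₀ η‖ ^ 2)
      ≤ Real.exp (2 * (1 / (64 * N)) ^ 2) * (1 - (1 - Real.exp (-(1 / (64 * N)) / N)) / 8) := by
    apply mul_le_mul_of_nonneg_left _ (Real.exp_pos _).le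
    have h1 : 0 ≤ 1 - Real.exp (-(1 / (64 * N)) / N) := by
      have : Real.exp (-(1 / (64 * N)) / N) ≤ 1 := by
        apply Real.exp_le_one_iff.mpr
        have : 0 ≤ (1 / (64 * N)) / N := by positivity
        rw [neg_div]; linarith
      linarith
    have h2 := mul_le_mul_of_nonneg_left hcutη h1
    linarith
  have hfin := hlow.trans (hup.trans (hlast.trans hnum))
  have : c0 ≤ 961 * ε := by linarith
  rw [hε] at this
  linarith

end

end Pool.Agent.Helper74ExtAm
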