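import Mathlib

set_option autoImplicit false
set_option linter.unusedSectionVars false

/-!
Relative property (T) for F_2-affine groups, in an abstract quantitative form.
-/

open Finset
open scoped Classical

namespace Pool.Agent.Helper74ExtAm

noncomputable section

/-- The sign character of `ZMod 2`. -/
def sgn (a : ZMod 2) : ℝ := if a = 0 then 1 else -1

lemma zmod2_cases (a : ZMod 2) : a = 0 ∨ a = 1 := by
  fin_cases a
  · left; rfl
  · right; rfl

lemma sgn_add (a b : ZMod 2) : sgn (a + b) = sgn a * sgn b := by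
  have h11 : (1 : ZMod 2) + 1 = 0 := by decide
  rcases zmod2_cases a with rfl | rfl <;> rcases zmod2_cases b with rfl | rfl <;>
    simp [sgn, h11]

lemma sgn_mul_self (a : ZMod 2) : sgn a * sgn a = 1 := by
  rcases zmod2_cases a with rfl | rfl <;> simp [sgn]

lemma sgn_zero : sgn 0 = 1 := by simp [sgn]

lemma sgn_one : sgn 1 = -1 := by simp [sgn]

section Dual

variable {W : Type*} [AddCommGroup W] [Module (ZMod 2) W]

/-- pairs of functionals -/
abbrev Ch (W : Type*) [AddCommGroup W] [Module (ZMod 2) W] : Type _ :=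
  (W →ₗ[ZMod 2] ZMod 2) × (W →ₗ[ZMod 2] ZMod 2)

/-- evaluation of a character -/
def ev (χ : Ch W) (v : W × W) : ZMod 2 := χ.1 v.1 + χ.2 v.2

lemma ev_add (χ : Ch W) (v v' : W × W) : ev χ (v + v') = ev χ v + ev χ v' := by
  simp [ev]; abel

lemma ev_add_left (χ χ' : Ch W) (v : W × W) : ev (χ + χ') v = ev χ v + ev χ' v := by
  simp [ev]; abel

lemma ev_zero (χ : Ch W) : ev χ 0 = 0 := by simp [ev]

lemma two_torsion (w : W) : w + w = 0 := by
  have : (2 : ZMod 2) • w = 0 := by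
    have h2 : (2 : ZMod 2) = 0 := by decide
    rw [h2, zero_smul]
  rw [two_smul] at this
  exact this

lemma exists_dual_one (w : W) (hw : w ≠ 0) : ∃ φ : W →ₗ[ZMod 2] ZMod 2, φ w = 1 :=
  Module.Projective.exists_dual_eq_one (ZMod 2) hw

lemma exists_ch_one (v : W × W) (hv : v ≠ 0) : ∃ χ : Ch W, ev χ v = 1 := by
  by_cases h : v.1 = 0
  · have h2 : v.2 ≠ 0 := by
      intro h2
      exact hv (Prod.ext h h2)
    obtain ⟨φ, hφ⟩ := exists_dual_one v.2 h2
    exact ⟨(0, φ), by simp [ev, hφ]⟩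
  · obtain ⟨φ, hφ⟩ := exists_dual_one v.1 h
    exact ⟨(φ, 0), by simp [ev, hφ]⟩

variable [Fintype W]

instance finiteDual : Finite (W →ₗ[ZMod 2] ZMod 2) :=
  Finite.of_injective (fun f : W →ₗ[ZMod 2] ZMod 2 => (f : W → ZMod 2)) DFunLike.coe_injective

instance fintypeDual : Fintype (W →ₗ[ZMod 2] ZMod 2) := Fintype.ofFinite _

lemma card_dual : Fintype.card (W →ₗ[ZMod 2] ZMod 2) = Fintype.card W := by
  have : Module.Finite (ZMod 2) W := Module.Finite.of_finite
  have h := Subspace.dual_finrank_eq (K := ZMod 2) (V := W)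
  have h1 := Module.card_eq_pow_finrank (K := ZMod 2) (V := W)
  have h2 := Module.card_eq_pow_finrank (K := ZMod 2) (V := Module.Dual (ZMod 2) W)
  rw [h] at h2
  rw [h1]
  convert h2 using 1

lemma card_ch : Fintype.card (Ch W) = Fintype.card (W × W) := by
  rw [Fintype.card_prod, Fintype.card_prod, card_dual]

lemma sum_sgn (v : W × W) :
    ∑ χ : Ch W, sgn (ev χ v) = if v = 0 then (Fintype.card (W × W) : ℝ) else 0 := by
  split_ifs with h
  · subst h
    simp only [ev_zero, sgn_zero, Finset.sum_const, Finset.card_univ, nsmul_eq_mul, mul_one]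
    rw [card_ch]
  · obtain ⟨χ₀, hχ₀⟩ := exists_ch_one v h
    have h1 : ∑ χ : Ch W, sgn (ev χ v) = ∑ χ : Ch W, sgn (ev (χ + χ₀) v) :=
      (Equiv.sum_comp (Equiv.addRight χ₀) (fun χ : Ch W => sgn (ev χ v))).symm
    have h2 : ∑ χ : Ch W, sgn (ev (χ + χ₀) v) = - ∑ χ : Ch W, sgn (ev χ v) := by
      rw [← Finset.sum_neg_distrib]
      refine Finset.sum_congr rfl fun χ _ => ?_
      rw [ev_add_left, sgn_add, hχ₀, sgn_one]; ring
    linarith

end Dual

section Proj

variable {W : Type*} [AddCommGroup W] [Module (ZMod 2) W] [Fintype W]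
variable {H : Type*} [NormedAddCommGroup H] [InnerProductSpace ℝ H]

/-- Spectral projection onto the `χ`-isotypic part. -/
def P (t : W × W → (H →ₗᵢ[ℝ] H)) (χ : Ch W) : H →ₗ[ℝ] H :=
  ((Fintype.card (W × W) : ℝ))⁻¹ • ∑ v : W × W, sgn (ev χ v) • (t v).toLinearMap

lemma P_apply (t : W × W → (H →ₗᵢ[ℝ] H)) (χ : Ch W) (x : H) :
    P t χ x = ((Fintype.card (W × W) : ℝ))⁻¹ • ∑ v : W × W, sgn (ev χ v) • t v x := by
  simp [P]

variable (t : W × W → (H →ₗᵢ[ℝ] H)) (t_zero : ∀ x, t 0 x = x)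
  (t_add : ∀ v v' x, t (v + v') x = t v (t v' x))

include t_zero t_add

lemma t_invol (v : W × W) (x : H) : t v (t v x) = x := by
  rw [← t_add]
  have : v + v = 0 := Prod.ext (two_torsion v.1) (two_torsion v.2)
  rw [this, t_zero]

lemma t_symm (v : W × W) (x y : H) : inner ℝ (t v x) y = inner ℝ x (t v y) := by
  rw [← (t v).inner_map_map x (t v y), t_invol t t_zero t_add]

omit t_zero in
lemma t_P (χ : Ch W) (v : W × W) (x : H) : t v (P t χ x) = sgn (ev χ v) • P t χ x := by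
  rw [P_apply, map_smul, map_sum, smul_comm]
  congr 1
  rw [Finset.smul_sum]
  rw [← Equiv.sum_comp (Equiv.addLeft v) (fun w => sgn (ev χ v) • sgn (ev χ w) • t w x)]
  refine Finset.sum_congr rfl fun w _ => ?_
  simp only [Equiv.coe_addLeft, map_smul]
  rw [ev_add, sgn_add, t_add, smul_smul, ← mul_assoc, sgn_mul_self, one_mul]

lemma P_t (χ : Ch W) (v : W × W) (x : H) : P t χ (t v x) = sgn (ev χ v) • P t χ x := by
  rw [P_apply, P_apply, smul_comm]
  congr 1
  rw [Finset.smul_sum]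
  rw [← Equiv.sum_comp (Equiv.addRight v) (fun w => sgn (ev χ v) • sgn (ev χ w) • t w x)]
  refine Finset.sum_congr rfl fun w _ => ?_
  simp only [Equiv.coe_addRight]
  rw [ev_add, sgn_add, t_add, smul_smul, mul_comm (sgn (ev χ w)), ← mul_assoc, sgn_mul_self,
    one_mul]

lemma inner_P_P (χ : Ch W) (x : H) : inner ℝ (P t χ x) (P t χ x) = inner ℝ x (P t χ x) := by
  have hc : (Fintype.card (W × W) : ℝ) ≠ 0 := by
    exact_mod_cast Fintype.card_ne_zero
  have h : ∀ v : W × W, inner ℝ (sgn (ev χ v) • t v x) (P t χ x) = inner ℝ x (P t χ x) := by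
    intro v
    rw [real_inner_smul_left, t_symm t t_zero t_add, t_P t t_add, real_inner_smul_right,
      ← mul_assoc, sgn_mul_self, one_mul]
  have : inner ℝ (P t χ x) (P t χ x)
      = inner ℝ (((Fintype.card (W × W) : ℝ))⁻¹ • ∑ v : W × W, sgn (ev χ v) • t v x) (P t χ x) := by
    rw [← P_apply]
  rw [this, real_inner_smul_left, sum_inner]
  simp_rw [h]
  rw [Finset.sum_const, nsmul_eq_mul, Finset.card_univ, ← mul_assoc, inv_mul_cancel₀ hc, one_mul]

lemma sum_P (x : H) : ∑ χ : Ch W, P t χ x = x := by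
  have hc : (Fintype.card (W × W) : ℝ) ≠ 0 := by
    exact_mod_cast Fintype.card_ne_zero
  simp_rw [P_apply]
  rw [← Finset.smul_sum, Finset.sum_comm]
  have : ∀ v : W × W, ∑ χ : Ch W, sgn (ev χ v) • t v x
      = (if v = 0 then (Fintype.card (W × W) : ℝ) else 0) • t v x := by
    intro v
    rw [← Finset.sum_smul, sum_sgn]
  simp_rw [this]
  simp only [ite_smul, zero_smul, Finset.sum_ite_eq', Finset.mem_univ, if_true, t_zero]
  rw [smul_smul, inv_mul_cancel₀ hc, one_smul]

lemma parseval (x : H) : ∑ χ : Ch W, ‖P t χ x‖ ^ 2 = ‖x‖ ^ 2 := by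
  have : ∀ χ : Ch W, ‖P t χ x‖ ^ 2 = inner ℝ x (P t χ x) := by
    intro χ
    rw [← real_inner_self_eq_norm_sq, inner_P_P t t_zero t_add]
  simp_rw [this]
  rw [← inner_sum, sum_P t t_zero t_add, real_inner_self_eq_norm_sq]

omit t_zero t_add in
/-- Mass of a set of characters. -/
def N (p : Ch W → Prop) (x : H) : ℝ := ∑ χ ∈ (univ : Finset (Ch W)).filter p, ‖P t χ x‖ ^ 2

omit t_zero t_add in
lemma N_nonneg (p : Ch W → Prop) (x : H) : 0 ≤ N t p x :=
  Finset.sum_nonneg fun _ _ => by positivity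

omit t_zero t_add in
lemma N_mono {p q : Ch W → Prop} (h : ∀ χ, p χ → q χ) (x : H) : N t p x ≤ N t q x := by
  refine Finset.sum_le_sum_of_subset_of_nonneg ?_ fun _ _ _ => by positivity
  intro χ hχ
  simp only [Finset.mem_filter, Finset.mem_univ, true_and] at hχ ⊢
  exact h χ hχ

lemma N_le (p : Ch W → Prop) (x : H) : N t p x ≤ ‖x‖ ^ 2 := by
  rw [← parseval t t_zero t_add x]
  refine Finset.sum_le_sum_of_subset_of_nonneg (Finset.filter_subset _ _) fun _ _ _ => by positivity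

omit t_zero t_add in
lemma N_or {p q : Ch W → Prop} (h : ∀ χ, p χ → ¬ q χ) (x : H) :
    N t (fun χ => p χ ∨ q χ) x = N t p x + N t q x := by
  unfold N
  have h0 : (@Finset.filter (Ch W) (fun χ => p χ ∨ q χ) (fun _ => Classical.propDecidable _) univ)
      = (univ : Finset (Ch W)).filter p ∪ (univ : Finset (Ch W)).filter q := by
    ext χ; simp
  rw [h0, Finset.sum_union]
  rw [Finset.disjoint_left]
  intro χ h1 h2
  simp only [Finset.mem_filter, Finset.mem_univ, true_and] at h1 h2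
  exact h χ h1 h2

lemma norm_sq_le_aux (a b : H) (ε : ℝ) (hε : 0 < ε) :
    ‖a‖ ^ 2 ≤ (1 + ε) * ‖b‖ ^ 2 + (1 + 1 / ε) * ‖a - b‖ ^ 2 := by
  have h1 : ‖a‖ ≤ ‖b‖ + ‖a - b‖ := by
    have := norm_add_le b (a - b)
    simpa using this
  have h2 : ‖a‖ ^ 2 ≤ (‖b‖ + ‖a - b‖) ^ 2 := by
    exact pow_le_pow_left₀ (norm_nonneg _) h1 2
  have h3 : 2 * (‖b‖ * ‖a - b‖) ≤ ε * ‖b‖ ^ 2 + (1 / ε) * ‖a - b‖ ^ 2 := by
    have h4 : 0 ≤ (ε * ‖b‖ - ‖a - b‖) ^ 2 / ε := by positivity
    have h5 : (ε * ‖b‖ - ‖a - b‖) ^ 2 / ε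
        = ε * ‖b‖ ^ 2 - 2 * (‖b‖ * ‖a - b‖) + (1 / ε) * ‖a - b‖ ^ 2 := by
      field_simp
      ring
    linarith
  nlinarith

lemma N_close (p : Ch W → Prop) (x y : H) (ε : ℝ) (hε : 0 < ε) (hy : ‖y‖ ≤ 1)
    (hxy : ‖x - y‖ ≤ ε) : N t p x ≤ N t p y + (2 * ε + ε ^ 2) := by
  have h1 : N t p x ≤ (1 + ε) * N t p y + (1 + 1 / ε) * N t p (x - y) := by
    unfold N
    rw [Finset.mul_sum, Finset.mul_sum, ← Finset.sum_add_distrib]
    refine Finset.sum_le_sum fun χ _ => ?_
    rw [map_sub]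
    exact norm_sq_le_aux t t_zero t_add _ _ ε hε
  have h2 : N t p y ≤ 1 := (N_le t t_zero t_add p y).trans (by nlinarith [norm_nonneg y])
  have h3 : N t p (x - y) ≤ ε ^ 2 :=
    (N_le t t_zero t_add p (x - y)).trans (by nlinarith [norm_nonneg (x - y)])
  have h4 : (1 + 1 / ε) * N t p (x - y) ≤ (1 + 1 / ε) * ε ^ 2 :=
    mul_le_mul_of_nonneg_left h3 (by positivity)
  have h5 : (1 + 1 / ε) * ε ^ 2 = ε ^ 2 + ε := by field_simp
  nlinarith

/-- How the spectral projections behave under an intertwining isometry. -/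
lemma P_intertwine (α : W × W → W × W) (hα : Function.Bijective α) (as : Ch W → Ch W)
    (has : ∀ χ v, ev χ (α v) = ev (as χ) v) (a : H →ₗᵢ[ℝ] H)
    (ha : ∀ v x, a (t v x) = t (α v) (a x)) (χ : Ch W) (x : H) :
    P t χ (a x) = a (P t (as χ) x) := by
  rw [P_apply, P_apply, map_smul, map_sum]
  congr 1
  rw [← Equiv.sum_comp (Equiv.ofBijective α hα) (fun v => sgn (ev χ v) • t v (a x))]
  refine Finset.sum_congr rfl fun v _ => ?_
  simp only [Equiv.ofBijective_apply, map_smul]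
  rw [has, ha]

lemma N_intertwine (α : W × W → W × W) (hα : Function.Bijective α) (as : Ch W → Ch W)
    (hinv : ∀ χ, as (as χ) = χ)
    (has : ∀ χ v, ev χ (α v) = ev (as χ) v) (a : H →ₗᵢ[ℝ] H)
    (ha : ∀ v x, a (t v x) = t (α v) (a x)) (p : Ch W → Prop) (x : H) :
    N t p (a x) = N t (fun χ => p (as χ)) x := by
  unfold N
  have h1 : ∀ χ, ‖P t χ (a x)‖ ^ 2 = ‖P t (as χ) x‖ ^ 2 := by
    intro χ
    rw [P_intertwine t t_zero t_add α hα as has a ha, a.norm_map]
  simp_rw [h1]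
  refine Finset.sum_bij' (fun χ _ => as χ) (fun χ _ => as χ) ?_ ?_ ?_ ?_ ?_
  · intro χ hχ
    simp only [Finset.mem_filter, Finset.mem_univ, true_and] at hχ ⊢
    rwa [hinv]
  · intro χ hχ
    simp only [Finset.mem_filter, Finset.mem_univ, true_and] at hχ ⊢
    exact hχ
  · intro χ _; exact hinv χ
  · intro χ _; exact hinv χ
  · intro χ _; rfl

/-- almost invariance of the spectral measure -/
lemma N_almost (α : W × W → W × W) (hα : Function.Bijective α) (as : Ch W → Ch W)
    (hinv : ∀ χ, as (as χ) = χ)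
    (has : ∀ χ v, ev χ (α v) = ev (as χ) v) (a : H →ₗᵢ[ℝ] H)
    (ha : ∀ v x, a (t v x) = t (α v) (a x)) (p : Ch W → Prop) (x : H) (hx : ‖x‖ ≤ 1) (ε : ℝ)
    (hε : 0 < ε) (hax : ‖a x - x‖ ≤ ε) :
    N t (fun χ => p (as χ)) x ≤ N t p x + (2 * ε + ε ^ 2) := by
  rw [← N_intertwine t t_zero t_add α hα as hinv has a ha]
  exact N_close t t_zero t_add p (a x) x ε hε hx hax

lemma N_translate (v : W × W) (x : H) (ε : ℝ) (h : ‖t v x - x‖ ≤ ε) :
    N t (fun χ => ev χ v = 1) x ≤ ε ^ 2 := by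
  have h1 : N t (fun χ => ev χ v = 1) (t v x - x) = 4 * N t (fun χ => ev χ v = 1) x := by
    unfold N
    rw [Finset.mul_sum]
    refine Finset.sum_congr rfl fun χ hχ => ?_
    simp only [Finset.mem_filter, Finset.mem_univ, true_and] at hχ
    rw [map_sub, P_t t t_zero t_add, hχ, sgn_one]
    have : (-1 : ℝ) • P t χ x - P t χ x = (-2 : ℝ) • P t χ x := by
      rw [show (-2 : ℝ) = -1 - 1 by norm_num, sub_smul, one_smul]
    rw [this, norm_smul]
    norm_num
    ring
  have h2 := N_le t t_zero t_add (fun χ => ev χ v = 1) (t v x - x)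
  have h3 : ‖t v x - x‖ ^ 2 ≤ ε ^ 2 := pow_le_pow_left₀ (norm_nonneg _) h 2
  have h4 := N_nonneg t (fun χ => ev χ v = 1) x
  linarith

end Proj

section Main

variable {W : Type*} [AddCommGroup W] [Module (ZMod 2) W] [Fintype W]
variable {H : Type*} [NormedAddCommGroup H] [InnerProductSpace ℝ H]
variable {C : Type*} [Fintype C]

lemma add_add_self_right (φ ψ : W →ₗ[ZMod 2] ZMod 2) : φ + ψ + ψ = φ := by
  have : ψ + ψ = 0 := by
    ext x
    simp only [LinearMap.add_apply, LinearMap.zero_apply]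
    rcases zmod2_cases (ψ x) with h | h <;> rw [h] <;> decide
  rw [add_assoc, this, add_zero]

/-- **Abstract relative property (T).**  `vl` is an ultrametric valuation on the dual such that the
operators `T c` strictly decrease the valuation for at least half of the parameters `c`. -/
theorem relT
    (t : W × W → (H →ₗᵢ[ℝ] H)) (t_zero : ∀ x, t 0 x = x)
    (t_add : ∀ v v' x, t (v + v') x = t v (t v' x))
    (w : W) (T : C → (W →ₗ[ZMod 2] W)) (c₀ : C) (hc₀ : T c₀ = 0)
    (vl : (W →ₗ[ZMod 2] ZMod 2) → ℕ∞)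
    (vl_top : ∀ φ, vl φ = ⊤ ↔ φ = 0)
    (vl_add : ∀ φ ψ, min (vl φ) (vl ψ) ≤ vl (φ + ψ))
    (vl_zero : ∀ φ, vl φ = 0 → φ w = 1)
    (vl_half : ∀ φ, φ ≠ 0 → vl φ ≠ 0 →
      Fintype.card C ≤ 2 * ((univ : Finset C).filter (fun c => vl (φ.comp (T c)) < vl φ)).card)
    (a₁ b : H →ₗᵢ[ℝ] H) (a : C → (H →ₗᵢ[ℝ] H))
    (ha₁ : ∀ (v : W × W) x, a₁ (t v x) = t (v.1 + v.2, v.2) (a₁ x))
    (hb : ∀ (v : W × W) x, b (t v x) = t (v.1, v.1 + v.2) (b x))
    (ha : ∀ c (v : W × W) x, a c (t v x) = t (v.1 + T c v.2, v.2) (a c x))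
    (x : H) (hx : ‖x‖ ≤ 1) (ε : ℝ) (hε : 0 < ε) (hε1 : ε ≤ 1)
    (hm : ‖t (w, 0) x - x‖ ≤ ε) (ha₁x : ‖a₁ x - x‖ ≤ ε) (hbx : ‖b x - x‖ ≤ ε)
    (hax : ∀ c, ‖a c x - x‖ ≤ ε) :
    ‖x‖ ^ 2 - ‖P t 0 x‖ ^ 2 ≤ 24 * Fintype.card C * ε := by
  set δ : ℝ := 2 * ε + ε ^ 2 with hδ
  have hδ3 : δ ≤ 3 * ε := by nlinarith
  have hδ0 : 0 ≤ δ := by positivity
  -- the three dual involutions
  let as₁ : Ch W → Ch W := fun χ => (χ.1, χ.2 + χ.1)
  let bs : Ch W → Ch W := fun χ => (χ.1 + χ.2, χ.2)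
  let as : C → Ch W → Ch W := fun c χ => (χ.1, χ.2 + χ.1.comp (T c))
  have has₁ : ∀ χ (v : W × W), ev χ ((fun v : W × W => (v.1 + v.2, v.2)) v) = ev (as₁ χ) v := by
    intro χ v
    simp only [ev, as₁, map_add, LinearMap.add_apply]; abel
  have hbs : ∀ χ (v : W × W), ev χ ((fun v : W × W => (v.1, v.1 + v.2)) v) = ev (bs χ) v := by
    intro χ v
    simp only [ev, bs, map_add, LinearMap.add_apply]; abel
  have has : ∀ c χ (v : W × W), ev χ ((fun v : W × W => (v.1 + T c v.2, v.2)) v)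
      = ev (as c χ) v := by
    intro c χ v
    simp only [ev, as, map_add, LinearMap.add_apply, LinearMap.comp_apply]; abel
  have inv₁ : ∀ χ, as₁ (as₁ χ) = χ := by
    intro χ
    simp only [as₁, add_add_self_right]
  have invb : ∀ χ, bs (bs χ) = χ := by
    intro χ
    simp only [bs, add_add_self_right]
  have inva : ∀ c χ, as c (as c χ) = χ := by
    intro c χ
    simp only [as, add_add_self_right]
  have bij₁ : Function.Bijective (fun v : W × W => (v.1 + v.2, v.2)) := by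
    refine Function.Involutive.bijective ?_
    intro v
    simp only [add_assoc, two_torsion, add_zero]
  have bijb : Function.Bijective (fun v : W × W => (v.1, v.1 + v.2)) := by
    refine Function.Involutive.bijective ?_
    intro v
    simp only [← add_assoc, two_torsion, zero_add]
  have bija : ∀ c, Function.Bijective (fun v : W × W => (v.1 + T c v.2, v.2)) := by
    intro c
    refine Function.Involutive.bijective ?_
    intro v
    simp only [add_assoc, two_torsion, add_zero]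
  -- ultrametric facts
  have ultra : ∀ φ ψ, vl φ < vl ψ → vl (φ + ψ) = vl φ := by
    intro φ ψ h
    apply le_antisymm
    · by_contra hcon
      push Not at hcon
      have h1 := vl_add (φ + ψ) ψ
      rw [add_add_self_right] at h1
      have : vl φ < min (vl (φ + ψ)) (vl ψ) := lt_min hcon h
      exact absurd h1 (not_le.mpr this)
    · have := vl_add φ ψ
      rwa [min_eq_left h.le] at this
  -- the sets
  let A1 : Ch W → Prop := fun χ => vl χ.2 < vl χ.1
  let A2 : Ch W → Prop := fun χ => vl χ.1 < vl χ.2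
  let A3 : Ch W → Prop := fun χ => vl χ.1 < vl (χ.1 + χ.2)
  let B : Ch W → Prop := fun χ => vl χ.1 ≤ vl χ.2 ∧ χ.1 ≠ 0
  let B' : Ch W → Prop := fun χ => (vl χ.1 ≤ vl χ.2 ∧ χ.1 ≠ 0) ∧ vl χ.1 ≠ 0
  let Z : Ch W → Prop := fun χ => χ = 0
  let K : Ch W → Prop := fun χ => ev χ (w, 0) = 1
  -- (i) N A3 ≤ N A2 + δ, N A1 ≤ N A3 + δ
  have e32 : N t A3 x ≤ N t A2 x + δ := by
    have h := N_almost t t_zero t_add _ bij₁ as₁ inv₁ has₁ a₁ ha₁ A2 x hx ε hε ha₁x
    refine le_trans (N_mono t ?_ x) h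
    intro χ hχ
    simp only [A2, as₁]
    simp only [A3] at hχ
    rwa [add_comm χ.2 χ.1]
  have e13 : N t A1 x ≤ N t A3 x + δ := by
    have h := N_almost t t_zero t_add _ bijb bs invb hbs b hb A3 x hx ε hε hbx
    refine le_trans (N_mono t ?_ x) h
    intro χ hχ
    simp only [A3, bs]
    simp only [A1] at hχ
    rw [add_add_self_right, add_comm, ultra χ.2 χ.1 hχ]
    exact hχ
  -- B contains A2 and A3 disjointly
  have eB : N t A2 x + N t A3 x ≤ N t B x := by
    rw [← N_or]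
    · apply N_mono
      rintro χ (h | h)
      · simp only [A2] at h
        refine ⟨h.le, ?_⟩
        intro h0
        have := (vl_top χ.1).mpr h0
        rw [this] at h
        exact absurd h (not_lt.mpr le_top)
      · simp only [A3] at h
        refine ⟨?_, ?_⟩
        · by_contra hcon
          push Not at hcon
          rw [add_comm, ultra χ.2 χ.1 hcon] at h
          exact absurd h (not_lt.mpr hcon.le)
        · intro h0
          have := (vl_top χ.1).mpr h0
          rw [this] at h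
          exact absurd h (not_lt.mpr le_top)
    · intro χ h2 h3
      simp only [A2, A3] at h2 h3
      rw [ultra χ.1 χ.2 h2] at h3
      exact lt_irrefl _ h3
  -- B ≤ B' + K
  have eBK : N t B x ≤ N t B' x + N t K x := by
    have h1 : N t B x ≤ N t (fun χ => B' χ ∨ (K χ ∧ ¬ B' χ)) x := by
      apply N_mono
      intro χ hχ
      by_cases h : vl χ.1 = 0
      · right
        refine ⟨?_, fun h' => h'.2 h⟩
        simp only [K, ev, map_zero, add_zero]
        exact vl_zero _ h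
      · left
        exact ⟨hχ, h⟩
    have h2 : N t (fun χ => B' χ ∨ (K χ ∧ ¬ B' χ)) x
        = N t B' x + N t (fun χ => K χ ∧ ¬ B' χ) x :=
      N_or t (fun χ h1 h2 => h2.2 h1) x
    have h3 : N t (fun χ => K χ ∧ ¬ B' χ) x ≤ N t K x := N_mono t (fun χ h => h.1) x
    linarith
  -- (ii) the shift argument
  let E : C → Ch W → Prop := fun c χ => B' χ ∧ vl (χ.1.comp (T c)) < vl χ.1
  have eE : ∀ c, N t (E c) x ≤ N t A1 x + δ := by
    intro c
    have h := N_almost t t_zero t_add _ (bija c) (as c) (inva c) (has c) (a c) (ha c) A1 x hx ε hε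
      (hax c)
    refine le_trans (N_mono t ?_ x) h
    rintro χ ⟨⟨⟨h1, -⟩, -⟩, h2⟩
    simp only [A1, as]
    rw [add_comm, ultra _ _ (lt_of_lt_of_le h2 h1)]
    exact h2
  have eE0 : N t (E c₀) x = 0 := by
    unfold N
    apply Finset.sum_eq_zero
    intro χ hχ
    exfalso
    simp only [Finset.mem_filter, Finset.mem_univ, true_and, E, hc₀, LinearMap.comp_zero] at hχ
    have := (vl_top (0 : W →ₗ[ZMod 2] ZMod 2)).mpr rfl
    rw [this] at hχ
    exact absurd hχ.2 (not_lt.mpr le_top)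
  have eSum : (Fintype.card C : ℝ) * N t B' x ≤ 2 * ∑ c : C, N t (E c) x := by
    have h1 : ∑ c : C, N t (E c) x
        = ∑ χ : Ch W, (((univ : Finset C).filter (fun c => E c χ)).card : ℝ) * ‖P t χ x‖ ^ 2 := by
      unfold N
      simp_rw [Finset.sum_filter]
      rw [Finset.sum_comm]
      refine Finset.sum_congr rfl fun χ _ => ?_
      rw [Finset.card_filter]
      push_cast
      rw [Finset.sum_mul]
      refine Finset.sum_congr rfl fun c _ => ?_
      split_ifs <;> simp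
    rw [h1, Finset.mul_sum]
    unfold N
    rw [Finset.mul_sum, Finset.sum_filter]
    refine Finset.sum_le_sum fun χ _ => ?_
    split_ifs with h
    · have h2 := vl_half χ.1 h.1.2 h.2
      have h3 : (univ : Finset C).filter (fun c => E c χ)
          = (univ : Finset C).filter (fun c => vl (χ.1.comp (T c)) < vl χ.1) := by
        ext c
        simp only [Finset.mem_filter, Finset.mem_univ, true_and, E]
        exact ⟨fun h' => h'.2, fun h' => ⟨h, h'⟩⟩
      rw [h3, ← mul_assoc]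
      apply mul_le_mul_of_nonneg_right _ (by positivity)
      exact_mod_cast h2
    · positivity
  have eSum2 : ∑ c : C, N t (E c) x ≤ ((Fintype.card C : ℝ) - 1) * (N t A1 x + δ) := by
    have h1 : ∑ c : C, N t (E c) x = ∑ c ∈ (univ : Finset C).erase c₀, N t (E c) x := by
      rw [← Finset.add_sum_erase _ _ (Finset.mem_univ c₀), eE0, zero_add]
    rw [h1]
    have h2 : ∑ c ∈ (univ : Finset C).erase c₀, N t (E c) x
        ≤ ∑ c ∈ (univ : Finset C).erase c₀, (N t A1 x + δ) :=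
      Finset.sum_le_sum fun c _ => eE c
    rw [Finset.sum_const, Finset.card_erase_of_mem (Finset.mem_univ _), nsmul_eq_mul,
      Finset.card_univ] at h2
    have hpos : 1 ≤ Fintype.card C := Fintype.card_pos_iff.mpr ⟨c₀⟩
    rw [Nat.cast_sub hpos, Nat.cast_one] at h2
    exact h2
  have eK : N t K x ≤ ε ^ 2 := N_translate t t_zero t_add (w, 0) x ε hm
  -- everything
  have eAll : ‖x‖ ^ 2 ≤ ‖P t 0 x‖ ^ 2 + N t A1 x + N t B x := by
    have h0 : N t Z x = ‖P t 0 x‖ ^ 2 := by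
      unfold N
      have : (@Finset.filter (Ch W) Z (fun _ => Classical.propDecidable _) univ) = {0} := by
        ext χ; simp [Z]
      rw [this, Finset.sum_singleton]
    have h1 : ‖x‖ ^ 2 = N t (fun _ => True) x := by
      rw [← parseval t t_zero t_add x]
      unfold N
      simp
    have h2 : N t (fun _ => True) x ≤ N t (fun χ => (Z χ ∨ A1 χ) ∨ B χ) x := by
      apply N_mono
      intro χ _
      by_cases h : vl χ.2 < vl χ.1
      · left; right; exact h
      · push Not at h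
        by_cases h' : χ.1 = 0
        · left; left
          have h3 := (vl_top χ.1).mpr h'
          rw [h3, top_le_iff] at h
          exact Prod.ext h' ((vl_top χ.2).mp h)
        · right; exact ⟨h, h'⟩
    have h3 : N t (fun χ => (Z χ ∨ A1 χ) ∨ B χ) x ≤ N t (fun χ => Z χ ∨ A1 χ) x + N t B x := by
      have h4 : N t (fun χ => (Z χ ∨ A1 χ) ∨ B χ) x
          = N t (fun χ => (Z χ ∨ A1 χ) ∨ (B χ ∧ ¬ (Z χ ∨ A1 χ))) x := by
        unfold N
        congr 1
        ext χ
        simp only [Finset.mem_filter, Finset.mem_univ, true_and]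
        tauto
      rw [h4, N_or t (fun χ h1 h2 => h2.2 h1) x]
      have := N_mono t (p := fun χ => B χ ∧ ¬ (Z χ ∨ A1 χ)) (q := B) (fun χ h => h.1) x
      linarith
    have h5 : N t (fun χ => Z χ ∨ A1 χ) x = N t Z x + N t A1 x := by
      apply N_or
      intro χ h1 h2
      simp only [Z] at h1
      subst h1
      simp [A1] at h2
    linarith
  have hn1 : (1 : ℝ) ≤ Fintype.card C := by
    have hpos : 1 ≤ Fintype.card C := Fintype.card_pos_iff.mpr ⟨c₀⟩
    exact_mod_cast hpos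
  have hn0 : (0 : ℝ) ≤ (Fintype.card C : ℝ) - 1 := by linarith
  set n : ℝ := (Fintype.card C : ℝ) with hn
  have hA1B : 2 * N t A1 x ≤ N t B x + 3 * δ := by linarith
  have hNA : 0 ≤ N t A1 x := N_nonneg t _ x
  have step1 : n * (N t B x - ε ^ 2) ≤ 2 * (n - 1) * (N t A1 x + δ) := by
    have : n * (N t B x - ε ^ 2) ≤ n * N t B' x := by
      apply mul_le_mul_of_nonneg_left _ (by linarith)
      linarith
    nlinarith
  have step2 : 2 * (n - 1) * (N t A1 x + δ) ≤ (n - 1) * (N t B x + 5 * δ) := by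
    have : 2 * (N t A1 x + δ) ≤ N t B x + 5 * δ := by linarith
    nlinarith
  have step3 : N t B x ≤ n * ε ^ 2 + (n - 1) * (5 * δ) := by nlinarith
  have hε2 : ε ^ 2 ≤ ε := by nlinarith
  have step4 : N t B x ≤ n * ε + (n - 1) * (15 * ε) := by
    have h1 : n * ε ^ 2 ≤ n * ε := mul_le_mul_of_nonneg_left hε2 (by linarith)
    have h2 : (n - 1) * (5 * δ) ≤ (n - 1) * (15 * ε) :=
      mul_le_mul_of_nonneg_left (by linarith) hn0
    linarith
  have : ‖x‖ ^ 2 - ‖P t 0 x‖ ^ 2 ≤ (3 / 2) * N t B x + (9 / 2) * ε := by linarith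
  nlinarith

end Main

end

end Pool.Agent.Helper74ExtAm
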