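import Pool.Agent.Helper74_ExtAm.RelT

set_option autoImplicit false
set_option linter.unusedSectionVars false

/-!
The valuation on the dual of a cyclic module.
-/

open Finset
open scoped Classical

namespace Pool.Agent.Helper74ExtAm

noncomputable section

variable {W : Type*} [AddCommGroup W] [Module (ZMod 2) W]
variable {J : Type*} [Fintype J]
variable (T : J → (W →ₗ[ZMod 2] W)) (w : W)

/-- evaluation of a word of operators on the base vector -/
def wd : List J → W
  | [] => w
  | j :: u => T j (wd u)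

/-- linear combination of the operators -/
def Tc (c : J → ZMod 2) : W →ₗ[ZMod 2] W := ∑ j, c j • T j

lemma Tc_apply (c : J → ZMod 2) (x : W) : Tc T c x = ∑ j, c j • T j x := by
  simp [Tc]

lemma Tc_zero : Tc T 0 = 0 := by simp [Tc]

/-- length of the shortest word detected by `φ` -/
def vl (φ : W →ₗ[ZMod 2] ZMod 2) : ℕ∞ := ⨅ (u : List J) (_ : φ (wd T w u) ≠ 0), (u.length : ℕ∞)

lemma vl_le (φ : W →ₗ[ZMod 2] ZMod 2) (u : List J) (h : φ (wd T w u) ≠ 0) :
    vl T w φ ≤ u.length := iInf₂_le u h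

lemma exists_vl (φ : W →ₗ[ZMod 2] ZMod 2) (h : ∃ u, φ (wd T w u) ≠ 0) :
    ∃ u, φ (wd T w u) ≠ 0 ∧ vl T w φ = u.length := by
  have hex : ∃ n : ℕ, ∃ u : List J, u.length = n ∧ φ (wd T w u) ≠ 0 := by
    obtain ⟨u, hu⟩ := h
    exact ⟨u.length, u, rfl, hu⟩
  obtain ⟨u, hu1, hu2⟩ := Nat.find_spec hex
  refine ⟨u, hu2, le_antisymm (vl_le T w φ u hu2) ?_⟩
  refine le_iInf₂ fun u' hu' => ?_
  rw [hu1]
  exact_mod_cast Nat.find_min' hex ⟨u', rfl, hu'⟩

lemma vl_top (hcyc : ∀ φ : W →ₗ[ZMod 2] ZMod 2, (∀ u, φ (wd T w u) = 0) → φ = 0)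
    (φ : W →ₗ[ZMod 2] ZMod 2) : vl T w φ = ⊤ ↔ φ = 0 := by
  constructor
  · intro h
    apply hcyc
    intro u
    by_contra hu
    have := vl_le T w φ u hu
    rw [h, top_le_iff] at this
    exact absurd this (ENat.coe_ne_top _)
  · rintro rfl
    simp [vl]

lemma vl_add (φ ψ : W →ₗ[ZMod 2] ZMod 2) :
    min (vl T w φ) (vl T w ψ) ≤ vl T w (φ + ψ) := by
  refine le_iInf₂ fun u hu => ?_
  by_cases h : φ (wd T w u) = 0
  · have h2 : ψ (wd T w u) ≠ 0 := by
      intro h2
      apply hu
      rw [LinearMap.add_apply, h, h2, add_zero]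
    exact (min_le_right _ _).trans (vl_le T w ψ u h2)
  · exact (min_le_left _ _).trans (vl_le T w φ u h)

lemma vl_zero (φ : W →ₗ[ZMod 2] ZMod 2) (h : vl T w φ = 0) : φ w = 1 := by
  have hex : ∃ u, φ (wd T w u) ≠ 0 := by
    by_contra hcon
    push Not at hcon
    have : vl T w φ = ⊤ := by
      simp [vl, hcon]
    rw [h] at this
    exact absurd this (by simp)
  obtain ⟨u, hu1, hu2⟩ := exists_vl T w φ hex
  rw [h] at hu2
  have h0 : u.length = 0 := by exact_mod_cast hu2.symm
  rw [List.length_eq_zero_iff] at h0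
  subst h0
  simp only [wd] at hu1
  rcases zmod2_cases (φ w) with h1 | h1
  · exact absurd h1 hu1
  · exact h1

lemma vl_half (hcyc : ∀ φ : W →ₗ[ZMod 2] ZMod 2, (∀ u, φ (wd T w u) = 0) → φ = 0)
    (φ : W →ₗ[ZMod 2] ZMod 2) (hφ : φ ≠ 0) (hv : vl T w φ ≠ 0) :
    Fintype.card (J → ZMod 2) ≤
      2 * ((univ : Finset (J → ZMod 2)).filter
        (fun c => vl T w (φ.comp (Tc T c)) < vl T w φ)).card := by
  have hex : ∃ u, φ (wd T w u) ≠ 0 := by
    by_contra hcon
    push Not at hcon
    exact hφ (hcyc φ hcon)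
  obtain ⟨u, hu1, hu2⟩ := exists_vl T w φ hex
  rcases u with _ | ⟨j, u⟩
  · simp at hu2; exact absurd hu2 hv
  simp only [wd] at hu1
  -- `g c = φ (T_c (wd u))`
  let g : (J → ZMod 2) → ZMod 2 := fun c => φ (Tc T c (wd T w u))
  have hg : ∀ c, g (c + Pi.single j 1) = g c + 1 := by
    intro c
    simp only [g, Tc_apply, map_sum, Pi.add_apply, add_smul, Finset.sum_add_distrib, map_add]
    congr 1
    rw [Finset.sum_eq_single j]
    · simp only [Pi.single_eq_same, one_smul]
      rcases zmod2_cases (φ (T j (wd T w u))) with h1 | h1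
      · exact absurd h1 hu1
      · exact h1
    · intro j' _ hj'
      rw [Pi.single_eq_of_ne hj', zero_smul, map_zero]
    · intro h; exact absurd (Finset.mem_univ j) h
  have hlt : ∀ c, g c ≠ 0 → vl T w (φ.comp (Tc T c)) < vl T w φ := by
    intro c hc
    have h1 : vl T w (φ.comp (Tc T c)) ≤ u.length := vl_le T w _ u hc
    rw [hu2]
    refine lt_of_le_of_lt h1 ?_
    simp only [List.length_cons]
    exact_mod_cast Nat.lt_succ_self _
  have hsub : ((univ : Finset (J → ZMod 2)).filter (fun c => g c ≠ 0)).card ≤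
      ((univ : Finset (J → ZMod 2)).filter
        (fun c => vl T w (φ.comp (Tc T c)) < vl T w φ)).card := by
    apply Finset.card_le_card
    intro c hc
    simp only [Finset.mem_filter, Finset.mem_univ, true_and] at hc ⊢
    exact hlt c hc
  have hinj : ((univ : Finset (J → ZMod 2)).filter (fun c => ¬ (g c ≠ 0))).card ≤
      ((univ : Finset (J → ZMod 2)).filter (fun c => g c ≠ 0)).card := by
    apply Finset.card_le_card_of_injOn (fun c => c + Pi.single j 1)
    · intro c hc
      simp only [Finset.coe_filter, Finset.mem_univ, true_and, Set.mem_setOf_eq, not_not,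
        Finset.mem_coe, Finset.mem_filter] at hc ⊢
      rw [hg, hc]
      decide
    · intro c _ c' _ h
      exact add_right_cancel h
  have htot := Finset.card_filter_add_card_filter_not (s := (univ : Finset (J → ZMod 2)))
    (fun c => g c ≠ 0)
  rw [Finset.card_univ] at htot
  omega

end

end Pool.Agent.Helper74ExtAm
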